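import Pool.Agent.Lib.MP_fa244c_mp.LDP.Energy

/-!
# The truncated energies approximate the true energy, deterministically and exponentially well
-/

open MeasureTheory Filter Topology Set InformationTheory
open scoped ENNReal NNReal

namespace Pool.Agent.Lib.MP_fa244c_mp

variable {X : Type*} [MeasurableSpace X]

lemma measure_point_zero {lam : Measure X} {φ : X → ℂ} {C D : ℝ} (hd : PosData lam φ C D) (w : ℂ) :
    lam {x | φ x = w} = 0 := by
  have h1 := hd.ball w 0 le_rfl
  have h2 : {x | φ x = w} ⊆ {x | ‖φ x - w‖ ≤ 0} := by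
    intro x hx
    have hx' : φ x = w := hx
    simp [hx']
  refine le_antisymm ((measure_mono h2).trans (h1.trans ?_)) bot_le
  simp

lemma prod_diag_zero {lam mu nu : Measure X} {φ : X → ℂ} {C D : ℝ} (hd : PosData lam φ C D)
    [IsProbabilityMeasure mu] [IsProbabilityMeasure nu] (hmu : mu ≪ lam) :
    ∀ᵐ p ∂(mu.prod nu), φ p.1 ≠ φ p.2 := by
  have hm : MeasurableSet {p : X × X | φ p.1 = φ p.2} :=
    measurableSet_eq_fun (hd.meas.comp measurable_fst) (hd.meas.comp measurable_snd)
  have h1 : (mu.prod nu) {p : X × X | φ p.1 = φ p.2} = 0 := by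
    rw [Measure.prod_apply_symm hm, lintegral_eq_zero_iff (measurable_measure_prodMk_right hm)]
    refine ae_of_all _ fun y => ?_
    exact hmu (measure_point_zero hd (φ y))
  rw [ae_iff]
  simpa using h1

/-- comparison of `∬ G dμ dν` with its truncation for measures of bounded entropy -/
lemma integral_prod_sub_le [TopologicalSpace X] [SecondCountableTopology X] [BorelSpace X]
    {lam : Measure X} {φ : X → ℂ} {G : X → X → ℝ}
    {h : X → ℝ} {C D C0 : ℝ} (hd : PosData lam φ C D) (hk : Kernel lam φ G h C0)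
    {mu nu : Measure X} [IsProbabilityMeasure mu] [IsProbabilityMeasure nu] {K : ℝ} (hK : 0 ≤ K)
    (hmu : klDiv mu lam ≤ ENNReal.ofReal K) (hnu : klDiv nu lam ≤ ENNReal.ofReal K)
    {R : ℝ} (hR : 0 < R) {U : Set X} (hUm : MeasurableSet U) {g : C(X × X, ℝ)}
    (hg : ∀ p, 0 ≤ g p ∧ g p ≤ R)
    (hgU : ∀ x y, x ∉ U → y ∉ U → x ≠ y → g (x, y) = min (G x y) R)
    {t : ℝ} (ht : 0 < t) (hst : C * Real.exp (C0 - R) ^ 2 ≤ Real.exp (-t)) :
    Integrable (fun p : X × X => G p.1 p.2) (mu.prod nu) ∧
    |∫ p, g p ∂(mu.prod nu) - ∫ p, G p.1 p.2 ∂(mu.prod nu)|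
      ≤ (K + 1) ^ 2 / t + 5 * C * Real.exp (C0 - R) ^ 2 + R * (mu.real U + nu.real U) := by
  obtain ⟨hac, -⟩ := klDiv_ne_top_iff.1 (ne_top_of_le_ne_top ENNReal.ofReal_ne_top hmu)
  have hC := hd.C_nonneg
  set s : ℝ := Real.exp (C0 - R) with hs
  have hs0 : 0 < s := Real.exp_pos _
  set b : ℝ := (K + 1) ^ 2 / t + 5 * C * s ^ 2 + R * (mu.real U + nu.real U) with hb
  have hgm : Measurable g := g.continuous.measurable
  have hdm : Measurable fun p : X × X => G p.1 p.2 - g p := hk.measG.sub hgm
  have hlm : Measurable fun p : X × X => ENNReal.ofReal (lgp s (φ p.1) (φ p.2)) :=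
    ENNReal.measurable_ofReal.comp ((measurable_lgp s).comp
      ((hd.meas.comp measurable_fst).prodMk (hd.meas.comp measurable_snd)))
  have hbound : ∫⁻ p, ENNReal.ofReal |G p.1 p.2 - g p| ∂(mu.prod nu) ≤ ENNReal.ofReal b := by
    have h1 : ∀ᵐ p ∂(mu.prod nu), ENNReal.ofReal |G p.1 p.2 - g p| ≤
        ENNReal.ofReal (lgp s (φ p.1) (φ p.2)) +
          (ENNReal.ofReal R * U.indicator 1 p.1 + ENNReal.ofReal R * U.indicator 1 p.2) := by
      filter_upwards [prod_diag_zero (nu := nu) hd hac] with p hp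
      have hne : p.1 ≠ p.2 := fun h => hp (by rw [h])
      have h2 := abs_sub_le_lgp hk.inj hk.nonneg hk.upper hR hg hgU hne
      refine (ENNReal.ofReal_le_ofReal h2).trans ?_
      refine ENNReal.ofReal_add_le.trans ?_
      gcongr
      rw [mul_add]
      refine ENNReal.ofReal_add_le.trans ?_
      have h3 : ∀ z : X, ENNReal.ofReal (R * U.indicator 1 z) = ENNReal.ofReal R * U.indicator 1 z := by
        intro z
        by_cases hz : z ∈ U
        · simp [hz]
        · simp [hz]
      rw [h3, h3]
    refine (lintegral_mono_ae h1).trans ?_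
    have hi1 : Measurable fun p : X × X => ENNReal.ofReal R * U.indicator 1 p.1 :=
      ((measurable_one.indicator hUm).comp measurable_fst).const_mul _
    have hi2 : Measurable fun p : X × X => ENNReal.ofReal R * U.indicator 1 p.2 :=
      ((measurable_one.indicator hUm).comp measurable_snd).const_mul _
    rw [lintegral_add_left hlm, lintegral_add_left hi1]
    have e1 : ∫⁻ p, ENNReal.ofReal (lgp s (φ p.1) (φ p.2)) ∂(mu.prod nu)
        ≤ ENNReal.ofReal ((K + 1) ^ 2 / t + 5 * C * s ^ 2) := by
      rw [lintegral_prod_symm' _ hlm]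
      exact lintegral_lgp_le hd hK hmu hnu hs0 ht hst
    have e2 : ∫⁻ p, ENNReal.ofReal R * U.indicator 1 p.1 ∂(mu.prod nu)
        = ENNReal.ofReal R * mu U := by
      rw [lintegral_prod_symm' _ hi1]
      simp only [lintegral_const, measure_univ, mul_one]
      rw [lintegral_const_mul _ (measurable_one.indicator hUm), lintegral_indicator_one hUm]
    have e3 : ∫⁻ p, ENNReal.ofReal R * U.indicator 1 p.2 ∂(mu.prod nu)
        = ENNReal.ofReal R * nu U := by
      rw [lintegral_prod_symm' _ hi2]
      simp only [lintegral_const, measure_univ, mul_one]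
      rw [lintegral_const_mul _ (measurable_one.indicator hUm), lintegral_indicator_one hUm]
    rw [e2, e3]
    have e4 : ∀ m : Measure X, IsProbabilityMeasure m →
        ENNReal.ofReal R * m U = ENNReal.ofReal (R * m.real U) := by
      intro m hm
      rw [ENNReal.ofReal_mul hR.le, measureReal_def, ENNReal.ofReal_toReal (measure_ne_top _ _)]
    rw [e4 mu inferInstance, e4 nu inferInstance, ← ENNReal.ofReal_add (by positivity) (by positivity)]
    refine (add_le_add e1 le_rfl).trans ?_
    rw [← ENNReal.ofReal_add (by positivity) (by positivity), hb, mul_add]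
  have hb0 : 0 ≤ b := by positivity
  have hdi : Integrable (fun p : X × X => G p.1 p.2 - g p) (mu.prod nu) := by
    refine ⟨hdm.aestronglyMeasurable, ?_⟩
    rw [hasFiniteIntegral_iff_norm]
    simp only [Real.norm_eq_abs]
    exact lt_of_le_of_lt hbound ENNReal.ofReal_lt_top
  have hgi : Integrable (fun p => g p) (mu.prod nu) :=
    integrable_of_bdd hgm (B := R) fun p => by rw [abs_of_nonneg (hg p).1]; exact (hg p).2
  have hGi : Integrable (fun p : X × X => G p.1 p.2) (mu.prod nu) := by
    have := hdi.add hgi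
    refine this.congr (ae_of_all _ fun p => ?_)
    simp
  refine ⟨hGi, ?_⟩
  rw [abs_sub_comm, ← integral_sub hGi hgi]
  refine (norm_integral_le_integral_norm (fun p : X × X => G p.1 p.2 - g p)).trans ?_
  simp only [Real.norm_eq_abs]
  rw [integral_eq_lintegral_of_nonneg_ae (ae_of_all _ fun p => abs_nonneg _)
    hdm.abs.aestronglyMeasurable]
  exact ENNReal.toReal_le_of_le_ofReal hb0 hbound

end Pool.Agent.Lib.MP_fa244c_mp
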