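import Pool.Agent.Lib.MP_fa244c_mp.LDP.Approx

/-!
# Exponential approximation of the vortex energy by continuous functions of the empirical measures
-/

open MeasureTheory Filter Topology Set InformationTheory
open scoped ENNReal NNReal

namespace Pool.Agent.Lib.MP_fa244c_mp

variable {X : Type*} [MeasurableSpace X]

/-- exponential Chebyshev for sums of independent variables -/
lemma chernoff_sum {lam : Measure X} [IsProbabilityMeasure lam] {f : X → ℝ}
    (hfi : Integrable (fun x => Real.exp (f x)) lam) {ι : Type*} [Fintype ι] (T : ℝ) :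
    (Measure.pi fun _ : ι => lam).real {x | T ≤ ∑ i, f (x i)}
      ≤ Real.exp (-T) * (∫ x, Real.exp (f x) ∂lam) ^ Fintype.card ι := by
  let Z : (ι → X) → ℝ := fun x => ∏ i, Real.exp (f (x i))
  have hZint : ∫ x, Z x ∂(Measure.pi fun _ : ι => lam)
      = (∫ x, Real.exp (f x) ∂lam) ^ Fintype.card ι := by
    have h1 := integral_fintype_prod_eq_prod (μ := fun _ : ι => lam)
      (fun _ x => Real.exp (f x))
    rw [h1, Finset.prod_const, Finset.card_univ]
  have hZ0 : ∀ x, 0 ≤ Z x := fun x => Finset.prod_nonneg fun i _ => (Real.exp_pos _).le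
  have hZi : Integrable Z (Measure.pi fun _ : ι => lam) :=
    Integrable.fintype_prod (μ := fun _ : ι => lam) (f := fun _ x => Real.exp (f x)) fun _ => hfi
  have hsub : {x : ι → X | T ≤ ∑ i, f (x i)} ⊆ {x | Real.exp T ≤ Z x} := by
    intro x hx
    simp only [mem_ofPred_eq, Z] at hx ⊢
    rw [← Real.exp_sum]
    exact Real.exp_le_exp.2 hx
  have hmarkov := mul_meas_ge_le_integral_of_nonneg (ae_of_all _ hZ0) hZi (Real.exp T)
  rw [hZint] at hmarkov
  have h5 : (Measure.pi fun _ : ι => lam).real {x | Real.exp T ≤ Z x}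
      ≤ Real.exp (-T) * (∫ x, Real.exp (f x) ∂lam) ^ Fintype.card ι := by
    rw [Real.exp_neg, inv_mul_eq_div, le_div_iff₀ (Real.exp_pos _), mul_comm]
    exact hmarkov
  exact (measureReal_mono hsub).trans h5

/-- the tail estimate for arbitrary finite index types -/
theorem tail_log' {lam : Measure X} {φ : X → ℂ} {C D : ℝ} (hd : PosData lam φ C D)
    (K : ℝ) {δ : ℝ} (hδ : 0 < δ) :
    ∃ R0 : ℝ, 0 ≤ R0 ∧ ∀ R, R0 ≤ R → ∃ A : ℝ, 0 ≤ A ∧ ∀ (ι : Type) [Fintype ι] [Nonempty ι],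
      (Measure.pi fun _ : ι => lam).real
        {z | δ * (Fintype.card ι : ℝ) ^ 2 < ∑ i, ∑ j, lgp (Real.exp (-R)) (φ (z i)) (φ (z j))}
        ≤ A * Real.exp (-(K * Fintype.card ι)) := by
  have hprob := hd.prob
  obtain ⟨R0, hR0, h⟩ := tail_log hd K hδ
  refine ⟨R0, hR0, fun R hR => ?_⟩
  obtain ⟨A, hA, h1⟩ := h R hR
  refine ⟨A, hA, ?_⟩
  intro ι _ _
  have h2 := h1 (Fintype.card ι) Fintype.card_pos
  let e : Fin (Fintype.card ι) ≃ ι := (Fintype.equivFin ι).symm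
  have hmp := measurePreserving_piCongrLeft (fun _ : ι => lam) e
  have h3 := hmp.measure_preimage_equiv
    {z : ι → X | δ * (Fintype.card ι : ℝ) ^ 2 < ∑ i, ∑ j, lgp (Real.exp (-R)) (φ (z i)) (φ (z j))}
  have h4 : (MeasurableEquiv.piCongrLeft (fun _ : ι => X) e) ⁻¹'
      {z : ι → X | δ * (Fintype.card ι : ℝ) ^ 2 < ∑ i, ∑ j, lgp (Real.exp (-R)) (φ (z i)) (φ (z j))}
      = {z | δ * (Fintype.card ι : ℝ) ^ 2 < ∑ i, ∑ j, lgp (Real.exp (-R)) (φ (z i)) (φ (z j))} := by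
    ext z
    simp only [mem_preimage, mem_ofPred_eq]
    have h5 : ∀ i, (MeasurableEquiv.piCongrLeft (fun _ : ι => X) e) z (e i) = z i := by
      intro i
      rw [MeasurableEquiv.coe_piCongrLeft]
      exact Equiv.piCongrLeft_apply_apply _ _ _ _
    rw [← e.sum_comp]
    have h6 : ∀ i : Fin (Fintype.card ι), ∑ j, lgp (Real.exp (-R))
        (φ ((MeasurableEquiv.piCongrLeft (fun _ : ι => X) e) z (e i)))
        (φ ((MeasurableEquiv.piCongrLeft (fun _ : ι => X) e) z j))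
        = ∑ j, lgp (Real.exp (-R)) (φ (z i)) (φ (z j)) := by
      intro i
      rw [← e.sum_comp]
      simp_rw [h5]
    simp_rw [h6]
  rw [h4] at h3
  rw [measureReal_def] at h2 ⊢
  rw [← h3]
  exact h2

end Pool.Agent.Lib.MP_fa244c_mp

namespace Pool.Agent.Lib.MP_fa244c_mp

variable {X : Type*} [MeasurableSpace X]

/-- a choice of truncations -/
structure Trunc [TopologicalSpace X] (lam : Measure X) (G : X → X → ℝ)
    (U : ℕ → Set X) (g : ℕ → C(X × X, ℝ)) : Prop where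
  measU : ∀ n, MeasurableSet (U n)
  smallU : ∀ n, lam.real (U n) ≤ Real.exp (-((n : ℝ) + 1) ^ 2)
  bound : ∀ n p, 0 ≤ g n p ∧ g n p ≤ (n : ℝ) + 1
  eq : ∀ n x y, x ∉ U n → y ∉ U n → x ≠ y → g n (x, y) = min (G x y) ((n : ℝ) + 1)

theorem exists_trunc [TopologicalSpace X] {lam : Measure X} {φ : X → ℂ} {G : X → X → ℝ} {h : X → ℝ}
    {C0 : ℝ} (hk : Kernel lam φ G h C0) :
    ∃ (U : ℕ → Set X) (g : ℕ → C(X × X, ℝ)), Trunc lam G U g := by
  have h1 : ∀ n : ℕ, ∃ U : Set X, MeasurableSet U ∧ lam.real U ≤ Real.exp (-((n : ℝ) + 1) ^ 2) ∧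
      ∃ g : C(X × X, ℝ), (∀ p, 0 ≤ g p ∧ g p ≤ (n : ℝ) + 1) ∧
      ∀ x y, x ∉ U → y ∉ U → x ≠ y → g (x, y) = min (G x y) ((n : ℝ) + 1) := fun n =>
    hk.approx ((n : ℝ) + 1) _ (by positivity) (Real.exp_pos _)
  choose U hU hUs g hg hgU using h1
  exact ⟨U, g, hU, hUs, hg, hgU⟩

section det

variable [TopologicalSpace X] [SecondCountableTopology X] [BorelSpace X]

/-- the error bound for one pair of measures -/
lemma trunc_pair_le {lam : Measure X} {φ : X → ℂ} {G : X → X → ℝ}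
    {h : X → ℝ} {C D C0 : ℝ} (hd : PosData lam φ C D) (hk : Kernel lam φ G h C0)
    {U : ℕ → Set X} {g : ℕ → C(X × X, ℝ)} (ht : Trunc lam G U g)
    {mu nu : Measure X} [IsProbabilityMeasure mu] [IsProbabilityMeasure nu] {K : ℝ} (hK : 0 ≤ K)
    (hmu : klDiv mu lam ≤ ENNReal.ofReal K) (hnu : klDiv nu lam ≤ ENNReal.ofReal K) {n : ℕ}
    (hn : C * Real.exp (2 * C0) ≤ Real.exp ((n : ℝ) + 1)) :
    Integrable (fun p : X × X => G p.1 p.2) (mu.prod nu) ∧
    |∫ p, g n p ∂(mu.prod nu) - ∫ p, G p.1 p.2 ∂(mu.prod nu)|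
      ≤ ((K + 1) ^ 2 + 5 + 2 * (K + 1)) / ((n : ℝ) + 1) := by
  have hprob := hd.prob
  set R : ℝ := (n : ℝ) + 1 with hR
  have hR0 : 0 < R := by rw [hR]; positivity
  have hst : C * Real.exp (C0 - R) ^ 2 ≤ Real.exp (-R) := by
    have h1 : Real.exp (C0 - R) ^ 2 = Real.exp (2 * C0) * (Real.exp (-R) * Real.exp (-R)) := by
      rw [← Real.exp_nat_mul, ← Real.exp_add, ← Real.exp_add]
      congr 1
      push_cast
      ring
    rw [h1]
    calc C * (Real.exp (2 * C0) * (Real.exp (-R) * Real.exp (-R)))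
        = (C * Real.exp (2 * C0)) * (Real.exp (-R) * Real.exp (-R)) := by ring
      _ ≤ Real.exp R * (Real.exp (-R) * Real.exp (-R)) :=
          mul_le_mul_of_nonneg_right hn (by positivity)
      _ = Real.exp (-R) := by rw [← Real.exp_add, ← Real.exp_add]; congr 1; ring
  obtain ⟨h1, h2⟩ := integral_prod_sub_le hd hk hK hmu hnu hR0 (ht.measU n) (ht.bound n) (ht.eq n)
    hR0 hst
  refine ⟨h1, h2.trans ?_⟩
  have h3 : ∀ m : Measure X, IsProbabilityMeasure m → klDiv m lam ≤ ENNReal.ofReal K →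
      R * m.real (U n) ≤ (K + 1) / R := by
    intro m hm hmK
    have h4 := measureReal_le_of_klDiv_le hK hmK (ht.measU n) (t := R ^ 2) (by positivity)
      (by have := ht.smallU n; rw [← hR] at this; simpa using this)
    calc R * m.real (U n) ≤ R * ((K + 1) / R ^ 2) := mul_le_mul_of_nonneg_left h4 hR0.le
      _ = (K + 1) / R := by field_simp
  have h5 := h3 mu inferInstance hmu
  have h6 := h3 nu inferInstance hnu
  have h7 : Real.exp (-R) ≤ 1 / R := by
    rw [Real.exp_neg, ← one_div]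
    refine one_div_le_one_div_of_le hR0 ?_
    linarith [Real.add_one_le_exp R]
  have h8 : 5 * C * Real.exp (C0 - R) ^ 2 ≤ 5 / R := by
    calc 5 * C * Real.exp (C0 - R) ^ 2 = 5 * (C * Real.exp (C0 - R) ^ 2) := by ring
      _ ≤ 5 * (1 / R) := by linarith
      _ = 5 / R := by ring
  calc (K + 1) ^ 2 / R + 5 * C * Real.exp (C0 - R) ^ 2 + R * (mu.real (U n) + nu.real (U n))
      ≤ (K + 1) ^ 2 / R + 5 / R + ((K + 1) / R + (K + 1) / R) := by rw [mul_add]; linarith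
    _ = ((K + 1) ^ 2 + 5 + 2 * (K + 1)) / R := by ring

/-- **deterministic approximation**, uniformly on sublevel sets of the entropy -/
theorem quad_approx {lam : ProbabilityMeasure X} {φ : X → ℂ} {G : X → X → ℝ}
    {h : X → ℝ} {C D C0 : ℝ} (hd : PosData (lam : Measure X) φ C D)
    (hk : Kernel (lam : Measure X) φ G h C0)
    {U : ℕ → Set X} {g : ℕ → C(X × X, ℝ)} (ht : Trunc (lam : Measure X) G U g)
    (K : ℝ) (δ : ℝ) (hδ : 0 < δ) :
    ∃ n0 : ℕ, ∀ n, n0 ≤ n → ∀ q, kl2 lam q ≤ ENNReal.ofReal K →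
      |quad (g n) q - quad (fun p => G p.1 p.2) q| ≤ δ := by
  set K' : ℝ := max K 0 with hK'
  have hK'0 : 0 ≤ K' := le_max_right _ _
  set B : ℝ := (K' + 1) ^ 2 + 5 + 2 * (K' + 1) with hB
  have hB0 : 0 < B := by positivity
  obtain ⟨n1, hn1⟩ := exists_nat_gt (C * Real.exp (2 * C0))
  obtain ⟨n2, hn2⟩ := exists_nat_gt (B / δ)
  refine ⟨max n1 n2, fun n hn q hq => ?_⟩
  have hn1' : (n1 : ℝ) ≤ n := by exact_mod_cast (le_max_left _ _).trans hn
  have hn2' : (n2 : ℝ) ≤ n := by exact_mod_cast (le_max_right _ _).trans hn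
  have hcond : C * Real.exp (2 * C0) ≤ Real.exp ((n : ℝ) + 1) := by
    linarith [Real.add_one_le_exp ((n : ℝ) + 1)]
  have hbn : B / ((n : ℝ) + 1) ≤ δ := by
    rw [div_le_iff₀ (by positivity)]
    rw [div_lt_iff₀ hδ] at hn2
    nlinarith
  have hq1 : klDiv (q.1 : Measure X) (lam : Measure X) ≤ ENNReal.ofReal K' :=
    (le_self_add.trans hq).trans (ENNReal.ofReal_le_ofReal (le_max_left _ _))
  have hq2 : klDiv (q.2 : Measure X) (lam : Measure X) ≤ ENNReal.ofReal K' :=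
    (le_add_self.trans hq).trans (ENNReal.ofReal_le_ofReal (le_max_left _ _))
  have e11 := (trunc_pair_le hd hk ht hK'0 hq1 hq1 hcond).2.trans hbn
  have e22 := (trunc_pair_le hd hk ht hK'0 hq2 hq2 hcond).2.trans hbn
  have e12 := (trunc_pair_le hd hk ht hK'0 hq1 hq2 hcond).2.trans hbn
  have e21 := (trunc_pair_le hd hk ht hK'0 hq2 hq1 hcond).2.trans hbn
  unfold quad
  rw [← mul_sub, abs_mul, abs_of_pos (by norm_num : (0 : ℝ) < 8⁻¹)]
  rw [abs_le] at e11 e22 e12 e21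
  have : |∫ p, g n p ∂((q.1 : Measure X).prod (q.1 : Measure X))
      + ∫ p, g n p ∂((q.2 : Measure X).prod (q.2 : Measure X))
      - ∫ p, g n p ∂((q.1 : Measure X).prod (q.2 : Measure X))
      - ∫ p, g n p ∂((q.2 : Measure X).prod (q.1 : Measure X))
      - (∫ p, G p.1 p.2 ∂((q.1 : Measure X).prod (q.1 : Measure X))
      + ∫ p, G p.1 p.2 ∂((q.2 : Measure X).prod (q.2 : Measure X))
      - ∫ p, G p.1 p.2 ∂((q.1 : Measure X).prod (q.2 : Measure X))
      - ∫ p, G p.1 p.2 ∂((q.2 : Measure X).prod (q.1 : Measure X)))| ≤ 4 * δ := by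
    rw [abs_le]
    constructor <;> linarith [e11.1, e11.2, e22.1, e22.2, e12.1, e12.2, e21.1, e21.2]
  calc (8 : ℝ)⁻¹ * _ ≤ 8⁻¹ * (4 * δ) := mul_le_mul_of_nonneg_left this (by norm_num)
    _ ≤ δ := by linarith

end det

end Pool.Agent.Lib.MP_fa244c_mp
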