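import Pool.Agent.Lib.MP_fa244c_mp.LDP.Approx2

/-!
# Exponential approximation of the vortex energy, and the large deviation upper bound
-/

open MeasureTheory Filter Topology Set InformationTheory
open scoped ENNReal NNReal

namespace Pool.Agent.Lib.MP_fa244c_mp

variable {X : Type*} [MeasurableSpace X]

lemma ae_distinct {lam : Measure X} {φ : X → ℂ} {C D : ℝ} (hd : PosData lam φ C D)
    {ι : Type*} [Fintype ι] :
    ∀ᵐ x ∂(Measure.pi fun _ : ι => lam), ∀ i j, i ≠ j → φ (x i) ≠ φ (x j) := by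
  have hprob := hd.prob
  rw [ae_all_iff]
  intro i
  rw [ae_all_iff]
  intro j
  by_cases hij : i = j
  · exact ae_of_all _ fun x h => absurd hij h
  have hind : ProbabilityTheory.IndepFun (fun x : ι → X => x i) (fun x : ι → X => x j)
      (Measure.pi fun _ : ι => lam) :=
    (ProbabilityTheory.iIndepFun_pi (μ := fun _ : ι => lam) (X := fun _ x => x)
      fun _ => aemeasurable_id).indepFun hij
  have hmap := (ProbabilityTheory.indepFun_iff_map_prod_eq_prod_map_map
    (measurable_pi_apply i).aemeasurable (measurable_pi_apply j).aemeasurable).1 hind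
  have hi : (Measure.pi fun _ : ι => lam).map (fun x => x i) = lam :=
    (measurePreserving_eval (fun _ : ι => lam) i).map_eq
  have hj : (Measure.pi fun _ : ι => lam).map (fun x => x j) = lam :=
    (measurePreserving_eval (fun _ : ι => lam) j).map_eq
  rw [hi, hj] at hmap
  have h1 := prod_diag_zero (nu := lam) hd Measure.AbsolutelyContinuous.rfl
  rw [← hmap] at h1
  have h2 := ae_of_ae_map ((measurable_pi_apply i).prodMk (measurable_pi_apply j)).aemeasurable h1
  filter_upwards [h2] with x hx _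
  exact hx

section

variable [TopologicalSpace X] [SecondCountableTopology X] [BorelSpace X]

/-- pointwise comparison of the energies at configurations without coincidences -/
lemma abs_Hn_sub_quad_le {lam : Measure X} {φ : X → ℂ} {G : X → X → ℝ}
    {h : X → ℝ} {C0 : ℝ} (hk : Kernel lam φ G h C0)
    {U : ℕ → Set X} {g : ℕ → C(X × X, ℝ)} (ht : Trunc lam G U g) (n : ℕ)
    {M : ℕ} [NeZero M] (x : Fin M ⊕ Fin M → X) (hx : ∀ i j, i ≠ j → φ (x i) ≠ φ (x j)) :
    |Hn G h M x - quad (g n) (emp2 x)| ≤ (8 * (M : ℝ) ^ 2)⁻¹ *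
      ((∑ i, ∑ j, lgp (Real.exp (C0 - ((n : ℝ) + 1))) (φ (x i)) (φ (x j)))
        + ((n : ℝ) + 1) * (2 * (2 * M) * ∑ i, (U n).indicator 1 (x i))
        + ((n : ℝ) + 1) * (2 * M) + ∑ i, |h (x i)|) := by
  classical
  set R : ℝ := (n : ℝ) + 1 with hR
  have hR0 : 0 < R := by rw [hR]; positivity
  have hgm : Measurable (g n) := (g n).continuous.measurable
  have hgb : ∀ p, |g n p| ≤ R := fun p => by
    rw [abs_of_nonneg (ht.bound n p).1]
    exact (ht.bound n p).2
  rw [quad_emp2 x hgm hgb]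
  unfold Hn
  rw [← mul_sub, abs_mul, abs_of_nonneg (show (0 : ℝ) ≤ (8 * (M : ℝ) ^ 2)⁻¹ by positivity)]
  refine mul_le_mul_of_nonneg_left ?_ (by positivity)
  rw [← Finset.sum_sub_distrib]
  simp_rw [← Finset.sum_sub_distrib]
  have hterm : ∀ i j, |(if i = j then h (x i) else cs i * cs j * G (x i) (x j))
      - cs i * cs j * g n (x i, x j)| ≤
      lgp (Real.exp (C0 - R)) (φ (x i)) (φ (x j))
        + R * ((U n).indicator 1 (x i) + (U n).indicator 1 (x j))
        + (if i = j then R + |h (x i)| else 0) := by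
    intro i j
    have hi0 : (0 : ℝ) ≤ (U n).indicator 1 (x i) := indicator_nonneg (fun _ _ => zero_le_one) _
    have hj0 : (0 : ℝ) ≤ (U n).indicator 1 (x j) := indicator_nonneg (fun _ _ => zero_le_one) _
    have hl0 := lgp_nonneg (Real.exp (C0 - R)) (φ (x i)) (φ (x j))
    by_cases hij : i = j
    · subst hij
      rw [if_pos rfl, if_pos rfl]
      have h1 : |h (x i) - cs i * cs i * g n (x i, x i)| ≤ |h (x i)| + R := by
        refine (abs_sub _ _).trans ?_
        rw [abs_mul, abs_mul, abs_cs, one_mul, one_mul]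
        linarith [hgb (x i, x i)]
      have h2 : 0 ≤ R * ((U n).indicator 1 (x i) + (U n).indicator 1 (x i)) := by positivity
      linarith
    · rw [if_neg hij, if_neg hij, add_zero, ← mul_sub, abs_mul, abs_mul, abs_cs, abs_cs, one_mul,
        one_mul]
      exact abs_sub_le_lgp hk.inj hk.nonneg hk.upper hR0 (ht.bound n) (ht.eq n)
        (fun h => hx i j hij (by rw [h]))
  refine (Finset.abs_sum_le_sum_abs _ _).trans ?_
  refine (Finset.sum_le_sum fun i _ => (Finset.abs_sum_le_sum_abs _ _).trans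
    (Finset.sum_le_sum fun j _ => hterm i j)).trans (le_of_eq ?_)
  simp only [Finset.sum_add_distrib, mul_add, Finset.sum_ite_eq, Finset.mem_univ, if_true,
    Finset.sum_const, Finset.card_univ, Fintype.card_sum, Fintype.card_fin, nsmul_eq_mul,
    ← Finset.mul_sum]
  push_cast
  ring

/-- **exponential approximation** -/
theorem Hn_approx {lam : ProbabilityMeasure X} {φ : X → ℂ} {G : X → X → ℝ}
    {h : X → ℝ} {C D C0 : ℝ} (hd : PosData (lam : Measure X) φ C D)
    (hk : Kernel (lam : Measure X) φ G h C0)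
    {U : ℕ → Set X} {g : ℕ → C(X × X, ℝ)} (ht : Trunc (lam : Measure X) G U g)
    (K : ℝ) (δ : ℝ) (hδ : 0 < δ) :
    ∃ n0 : ℕ, ∀ n, n0 ≤ n → ∃ A : ℝ, ∀ (M : ℕ) [NeZero M],
      (Measure.pi fun _ : Fin M ⊕ Fin M => (lam : Measure X)).real
        {x | δ < |Hn G h M x - quad (g n) (emp2 x)|} ≤ A * Real.exp (-(K * M)) := by
  classical
  wlog hK : 0 ≤ K generalizing K
  · obtain ⟨n0, h1⟩ := this 0 le_rfl
    refine ⟨n0, fun n hn => ?_⟩
    obtain ⟨A, h2⟩ := h1 n hn
    refine ⟨max A 0, fun M _ => (h2 M).trans ?_⟩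
    have h3 : (0 : ℝ) ≤ M := Nat.cast_nonneg M
    have h4 : K * M ≤ 0 := mul_nonpos_of_nonpos_of_nonneg (le_of_not_ge hK) h3
    calc A * Real.exp (-(0 * M)) ≤ max A 0 * Real.exp (-(0 * M)) :=
          mul_le_mul_of_nonneg_right (le_max_left _ _) (Real.exp_pos _).le
      _ ≤ max A 0 * Real.exp (-(K * M)) :=
          mul_le_mul_of_nonneg_left (Real.exp_le_exp.2 (by linarith)) (le_max_right _ _)
  have hprob := hd.prob
  obtain ⟨R0, hR0, htail⟩ := tail_log' hd K (half_pos hδ)
  obtain ⟨β, hβ, hβi⟩ := hk.exph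
  set L : ℝ := ∫ x, Real.exp (β * |h x|) ∂(lam : Measure X) with hL
  have hL1 : 1 ≤ L := by
    have h1 : ∫ _x, (1 : ℝ) ∂(lam : Measure X) ≤ L := by
      refine integral_mono (integrable_const _) hβi fun x => ?_
      exact Real.one_le_exp (by positivity)
    simpa using h1
  obtain ⟨n1, hn1⟩ := exists_nat_gt (R0 + C0)
  obtain ⟨n2, hn2⟩ := exists_nat_gt (4 * (K + 1) / δ)
  refine ⟨max n1 n2, fun n hn => ?_⟩
  have hn1' : (n1 : ℝ) ≤ n := by exact_mod_cast (le_max_left _ _).trans hn
  have hn2' : (n2 : ℝ) ≤ n := by exact_mod_cast (le_max_right _ _).trans hn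
  set R : ℝ := (n : ℝ) + 1 with hR
  have hRpos : 0 < R := by rw [hR]; positivity
  obtain ⟨A1, hA1, htail1⟩ := htail (R - C0) (by linarith)
  have hRK : 4 * (K + 1) / δ < R := by linarith
  rw [div_lt_iff₀ hδ] at hRK
  set b : ℝ := Real.log L with hb
  set a : ℝ := β * δ / 2 with ha
  have ha0 : 0 < a := by rw [ha]; positivity
  refine ⟨A1 + 1 + Real.exp (K * (2 * R / δ)) + Real.exp ((b + K) ^ 2 / (4 * a)), ?_⟩
  intro M hM
  have hMpos : (0 : ℝ) < M := by exact_mod_cast Nat.pos_of_neZero M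
  set N : ℝ := 2 * M with hN
  have hNpos : 0 < N := by rw [hN]; positivity
  have hcard : (Fintype.card (Fin M ⊕ Fin M) : ℝ) = N := by
    rw [Fintype.card_sum, Fintype.card_fin, hN]
    push_cast
    ring
  set P : Measure (Fin M ⊕ Fin M → X) := Measure.pi fun _ => (lam : Measure X) with hP
  -- the bad events
  set E1 : Set (Fin M ⊕ Fin M → X) := {x | δ / 2 * N ^ 2 <
    ∑ i, ∑ j, lgp (Real.exp (C0 - R)) (φ (x i)) (φ (x j))} with hE1
  set E2 : Set (Fin M ⊕ Fin M → X) := {x | R ^ 2 * (δ * N / (4 * R)) ≤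
    ∑ i, (fun y => R ^ 2 * (U n).indicator 1 y) (x i)} with hE2
  set E3 : Set (Fin M ⊕ Fin M → X) := {_x | δ / 2 * N ^ 2 < R * N} with hE3
  set E4 : Set (Fin M ⊕ Fin M → X) := {x | a * N ^ 2 ≤ ∑ i, (fun y => β * |h y|) (x i)} with hE4
  have hsub : ∀ᵐ x ∂P, x ∈ {x | δ < |Hn G h M x - quad (g n) (emp2 x)|} →
      x ∈ E1 ∪ E2 ∪ E3 ∪ E4 := by
    filter_upwards [ae_distinct hd (ι := Fin M ⊕ Fin M)] with x hx hbad
    by_contra hcon
    simp only [mem_union, not_or] at hcon
    obtain ⟨⟨⟨h1, h2⟩, h3⟩, h4⟩ := hcon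
    have hbad' : δ < |Hn G h M x - quad (g n) (emp2 x)| := hbad
    have h5 := abs_Hn_sub_quad_le hk ht n x hx
    rw [← hR] at h5
    have h1' : ∑ i, ∑ j, lgp (Real.exp (C0 - R)) (φ (x i)) (φ (x j)) ≤ δ / 2 * N ^ 2 :=
      not_lt.1 h1
    have h2' : ∑ i, R ^ 2 * (U n).indicator 1 (x i) < R ^ 2 * (δ * N / (4 * R)) := not_le.1 h2
    have h3' : R * N ≤ δ / 2 * N ^ 2 := not_lt.1 h3
    have h4' : ∑ i, β * |h (x i)| < a * N ^ 2 := not_le.1 h4
    rw [← Finset.mul_sum] at h2' h4'
    have h2'' : ∑ i, (U n).indicator 1 (x i) ≤ δ * N / (4 * R) :=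
      (lt_of_mul_lt_mul_left h2' (by positivity)).le
    have h2''' : R * (2 * (2 * M) * ∑ i, (U n).indicator 1 (x i)) ≤ δ / 2 * N ^ 2 := by
      calc R * (2 * (2 * M) * ∑ i, (U n).indicator 1 (x i))
          ≤ R * (2 * (2 * M) * (δ * N / (4 * R))) := by
            refine mul_le_mul_of_nonneg_left ?_ hRpos.le
            exact mul_le_mul_of_nonneg_left h2'' (by positivity)
        _ = δ / 2 * N ^ 2 := by rw [← hN]; field_simp; ring
    have h4'' : ∑ i, |h (x i)| ≤ δ / 2 * N ^ 2 := by
      rw [ha] at h4'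
      have h6 : β * ∑ i, |h (x i)| < β * (δ / 2 * N ^ 2) := by
        calc β * ∑ i, |h (x i)| < β * δ / 2 * N ^ 2 := h4'
          _ = β * (δ / 2 * N ^ 2) := by ring
      exact (lt_of_mul_lt_mul_left h6 hβ.le).le
    have h7 : (8 * (M : ℝ) ^ 2)⁻¹ *
      ((∑ i, ∑ j, lgp (Real.exp (C0 - R)) (φ (x i)) (φ (x j)))
        + R * (2 * (2 * M) * ∑ i, (U n).indicator 1 (x i))
        + R * (2 * M) + ∑ i, |h (x i)|) ≤ (8 * (M : ℝ) ^ 2)⁻¹ * (4 * (δ / 2 * N ^ 2)) := by
      refine mul_le_mul_of_nonneg_left ?_ (by positivity)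
      rw [← hN] at h2''' ⊢
      linarith
    have h8 : (8 * (M : ℝ) ^ 2)⁻¹ * (4 * (δ / 2 * N ^ 2)) = δ := by
      rw [hN]
      field_simp
      ring
    linarith
  have hP1 : P.real {x | δ < |Hn G h M x - quad (g n) (emp2 x)|}
      ≤ P.real E1 + P.real E2 + P.real E3 + P.real E4 := by
    have h1 : P.real {x | δ < |Hn G h M x - quad (g n) (emp2 x)|} ≤ P.real (E1 ∪ E2 ∪ E3 ∪ E4) := by
      rw [measureReal_def, measureReal_def]
      exact ENNReal.toReal_mono (measure_ne_top _ _) (measure_mono_ae hsub)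
    refine h1.trans ?_
    refine (measureReal_union_le _ _).trans ?_
    refine add_le_add ?_ le_rfl
    refine (measureReal_union_le _ _).trans ?_
    refine add_le_add ?_ le_rfl
    exact measureReal_union_le _ _
  have hexpKN : Real.exp (-(K * N)) ≤ Real.exp (-(K * M)) := by
    refine Real.exp_le_exp.2 ?_
    have : K * M ≤ K * N := by
      rw [hN]
      nlinarith
    linarith
  -- E1
  have hb1 : P.real E1 ≤ A1 * Real.exp (-(K * N)) := by
    have h1 := htail1 (Fin M ⊕ Fin M)
    rw [hcard, neg_sub] at h1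
    exact h1
  -- E2
  have hb2 : P.real E2 ≤ 1 * Real.exp (-(K * N)) := by
    have hUi : Integrable (fun y => Real.exp (R ^ 2 * (U n).indicator 1 y)) (lam : Measure X) := by
      refine integrable_exp_of_bdd (B := R ^ 2)
        ((measurable_one.indicator (ht.measU n)).const_mul _) fun y => ?_
      by_cases hy : y ∈ U n
      · simp [hy]
      · simp [hy, sq_nonneg]
    have h1 := chernoff_sum hUi (ι := Fin M ⊕ Fin M) (R ^ 2 * (δ * N / (4 * R)))
    refine h1.trans ?_
    have h2 : ∫ y, Real.exp (R ^ 2 * (U n).indicator 1 y) ∂(lam : Measure X) ≤ 2 := by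
      have h5 : ∀ y, Real.exp (R ^ 2 * (U n).indicator 1 y)
          ≤ 1 + (U n).indicator (fun _ => Real.exp (R ^ 2)) y := by
        intro y
        by_cases hy : y ∈ U n
        · simp [hy]
        · simp [hy]
      refine (integral_mono hUi ((integrable_const _).add
        ((integrable_const _).indicator (ht.measU n))) h5).trans ?_
      rw [integral_add' (integrable_const _) ((integrable_const _).indicator (ht.measU n)),
        integral_indicator (ht.measU n), setIntegral_const, smul_eq_mul]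
      simp only [integral_const, probReal_univ, smul_eq_mul, one_mul]
      have h7 : (lam : Measure X).real (U n) * Real.exp (R ^ 2) ≤ 1 := by
        have h8 := ht.smallU n
        rw [← hR] at h8
        calc (lam : Measure X).real (U n) * Real.exp (R ^ 2)
            ≤ Real.exp (-R ^ 2) * Real.exp (R ^ 2) :=
              mul_le_mul_of_nonneg_right h8 (Real.exp_pos _).le
          _ = 1 := by rw [← Real.exp_add]; simp
      linarith
    have h3 : 0 ≤ ∫ y, Real.exp (R ^ 2 * (U n).indicator 1 y) ∂(lam : Measure X) :=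
      integral_nonneg fun y => (Real.exp_pos _).le
    have h4 : (∫ y, Real.exp (R ^ 2 * (U n).indicator 1 y) ∂(lam : Measure X))
        ^ Fintype.card (Fin M ⊕ Fin M) ≤ Real.exp N := by
      have h5 : (2 : ℝ) ≤ Real.exp 1 := by linarith [Real.add_one_le_exp (1 : ℝ)]
      calc _ ≤ (Real.exp 1) ^ Fintype.card (Fin M ⊕ Fin M) :=
            pow_le_pow_left₀ h3 (h2.trans h5) _
        _ = Real.exp N := by rw [← Real.exp_nat_mul, mul_one, hcard]
    calc Real.exp (-(R ^ 2 * (δ * N / (4 * R)))) * _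
        ≤ Real.exp (-(R ^ 2 * (δ * N / (4 * R)))) * Real.exp N :=
          mul_le_mul_of_nonneg_left h4 (Real.exp_pos _).le
      _ = Real.exp (-(R ^ 2 * (δ * N / (4 * R))) + N) := (Real.exp_add _ _).symm
      _ ≤ 1 * Real.exp (-(K * N)) := by
          rw [one_mul]
          refine Real.exp_le_exp.2 ?_
          have h6 : R ^ 2 * (δ * N / (4 * R)) = R * δ / 4 * N := by field_simp
          rw [h6]
          have h7 : K + 1 ≤ R * δ / 4 := by linarith
          have h8 := mul_le_mul_of_nonneg_right h7 hNpos.le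
          linarith
  -- E3
  have hb3 : P.real E3 ≤ Real.exp (K * (2 * R / δ)) * Real.exp (-(K * N)) := by
    by_cases hc : δ / 2 * N ^ 2 < R * N
    · have h1 : N < 2 * R / δ := by
        rw [lt_div_iff₀ hδ]
        have : N * (δ / 2 * N) < N * R := by linarith
        have := lt_of_mul_lt_mul_left this hNpos.le
        linarith
      rw [← Real.exp_add]
      refine (measureReal_le_one).trans (Real.one_le_exp ?_)
      nlinarith
    · have h1 : E3 = ∅ := by
        rw [hE3]
        ext x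
        simp only [mem_ofPred_eq, mem_empty_iff_false, iff_false]
        exact hc
      rw [h1, measureReal_empty]
      positivity
  -- E4
  have hb4 : P.real E4 ≤ Real.exp ((b + K) ^ 2 / (4 * a)) * Real.exp (-(K * N)) := by
    have h1 := chernoff_sum hβi (ι := Fin M ⊕ Fin M) (a * N ^ 2)
    refine h1.trans ?_
    have h2 : (∫ y, Real.exp (β * |h y|) ∂(lam : Measure X)) ^ Fintype.card (Fin M ⊕ Fin M)
        = Real.exp (b * N) := by
      rw [← hL, hb, mul_comm, ← hcard, Real.exp_nat_mul, Real.exp_log (by linarith)]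
    rw [h2, ← Real.exp_add, ← Real.exp_add]
    refine Real.exp_le_exp.2 ?_
    have h3 : 0 ≤ (2 * a * N - (b + K)) ^ 2 := sq_nonneg _
    have h4 : (b + K) * N - a * N ^ 2 ≤ (b + K) ^ 2 / (4 * a) := by
      rw [le_div_iff₀ (by positivity)]
      nlinarith
    linarith
  calc P.real {x | δ < |Hn G h M x - quad (g n) (emp2 x)|}
      ≤ P.real E1 + P.real E2 + P.real E3 + P.real E4 := hP1
    _ ≤ (A1 + 1 + Real.exp (K * (2 * R / δ)) + Real.exp ((b + K) ^ 2 / (4 * a)))
          * Real.exp (-(K * N)) := by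
        rw [add_mul, add_mul, add_mul]
        linarith
    _ ≤ _ := mul_le_mul_of_nonneg_left hexpKN (by positivity)

end

section final

variable [TopologicalSpace X] [CompactSpace X] [T2Space X] [SecondCountableTopology X]
  [TopologicalSpace.PseudoMetrizableSpace X] [BorelSpace X]

/-- **Large deviation upper bound for the vortex energy and the empirical measures.** -/
theorem vortex_ldp_upper {lam : ProbabilityMeasure X} {φ : X → ℂ} {G : X → X → ℝ}
    {h : X → ℝ} {C D C0 : ℝ} (hd : PosData (lam : Measure X) φ C D)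
    (hk : Kernel (lam : Measure X) φ G h C0)
    {F : Set (ProbabilityMeasure X × ProbabilityMeasure X)} (hF : IsClosed F)
    {J : Set ℝ} (hJ : IsClosed J) {K : ℝ}
    (hKF : ∀ q ∈ F, quad (fun p => G p.1 p.2) q ∈ J → ENNReal.ofReal K < kl2 lam q) :
    ∃ δ : ℝ, 0 < δ ∧ ∃ A : ℝ, 0 ≤ A ∧ ∀ (M : ℕ) [NeZero M],
      (Measure.pi fun _ : Fin M ⊕ Fin M => (lam : Measure X)).real
        {x | emp2 x ∈ F ∧ ∃ y ∈ J, |Hn G h M x - y| ≤ δ} ≤ A * Real.exp (-(K * M)) := by
  obtain ⟨U, g, ht⟩ := exists_trunc hk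
  exact contraction_upper lam (Hn G h) (e := quad fun p => G p.1 p.2) (eR := fun n => quad (g n))
    (fun n => continuous_quad (g n)) (fun K δ hδ => quad_approx hd hk ht K δ hδ)
    (fun K δ hδ => Hn_approx hd hk ht K δ hδ) hF hJ hKF

/-- the energy functional is continuous on sublevel sets of the entropy -/
theorem continuousOn_quad {lam : ProbabilityMeasure X} {φ : X → ℂ} {G : X → X → ℝ}
    {h : X → ℝ} {C D C0 : ℝ} (hd : PosData (lam : Measure X) φ C D)
    (hk : Kernel (lam : Measure X) φ G h C0) (K : ℝ) :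
    ContinuousOn (quad fun p => G p.1 p.2) {q | kl2 lam q ≤ ENNReal.ofReal K} := by
  obtain ⟨U, g, ht⟩ := exists_trunc hk
  exact continuousOn_energy lam (eR := fun n => quad (g n)) (fun n => continuous_quad (g n))
    (fun δ hδ => quad_approx hd hk ht K δ hδ)

end final

end Pool.Agent.Lib.MP_fa244c_mp
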