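import Mathlib

/-!
# Change of measure for product measures, and a weak law of large numbers
-/

open MeasureTheory Filter Topology Set ProbabilityTheory
open scoped ENNReal NNReal

namespace Pool.Agent.Lib.MP_fa244c_mp

variable {n : Type*} [Fintype n] {X : n → Type*} [∀ i, MeasurableSpace (X i)]

/-- the integral of a product of functions of one coordinate -/
lemma lintegral_pi_prod (μ : ∀ i, Measure (X i)) [∀ i, IsProbabilityMeasure (μ i)]
    {f : ∀ i, X i → ℝ≥0∞} (hf : ∀ i, Measurable (f i)) :
    ∫⁻ x, ∏ i, f i (x i) ∂(Measure.pi μ) = ∏ i, ∫⁻ y, f i y ∂(μ i) := by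
  have h1 := lintegral_prod_eq_prod_lintegral_of_indepFun (μ := Measure.pi μ) Finset.univ
    (fun i (x : ∀ i, X i) => f i (x i)) (iIndepFun_pi fun i => (hf i).aemeasurable)
    (fun i => (hf i).comp (measurable_pi_apply i))
  rw [h1]
  refine Finset.prod_congr rfl fun i _ => ?_
  have h2 := (measurePreserving_eval μ i).lintegral_comp (hf i)
  exact h2

/-- the product of measures with densities has the product density -/
theorem pi_withDensity (μ : ∀ i, Measure (X i)) [∀ i, IsProbabilityMeasure (μ i)]
    {f : ∀ i, X i → ℝ≥0∞} (hf : ∀ i, Measurable (f i))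
    [∀ i, IsProbabilityMeasure ((μ i).withDensity (f i))] :
    Measure.pi (fun i => (μ i).withDensity (f i))
      = (Measure.pi μ).withDensity (fun x => ∏ i, f i (x i)) := by
  classical
  refine Measure.pi_eq fun s hs => ?_
  rw [withDensity_apply _ (MeasurableSet.univ_pi hs), ← lintegral_indicator (MeasurableSet.univ_pi hs)]
  have h1 : ∀ x : ∀ i, X i, (Set.univ.pi s).indicator (fun x => ∏ i, f i (x i)) x
      = ∏ i, (s i).indicator (f i) (x i) := by
    intro x
    by_cases hx : x ∈ Set.univ.pi s
    · rw [indicator_of_mem hx]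
      refine Finset.prod_congr rfl fun i _ => ?_
      rw [indicator_of_mem (hx i (mem_univ i))]
    · rw [indicator_of_notMem hx]
      have : ∃ i, x i ∉ s i := by
        by_contra hcon
        push Not at hcon
        exact hx fun i _ => hcon i
      obtain ⟨i, hi⟩ := this
      exact (Finset.prod_eq_zero (Finset.mem_univ i) (indicator_of_notMem hi _)).symm
  simp_rw [h1]
  rw [lintegral_pi_prod μ (fun i => (hf i).indicator (hs i))]
  refine Finset.prod_congr rfl fun i _ => ?_
  rw [lintegral_indicator (hs i), withDensity_apply _ (hs i)]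

/-- **Change of measure.** -/
theorem change_of_measure (μ : ∀ i, Measure (X i)) [∀ i, IsProbabilityMeasure (μ i)]
    {ρ : ∀ i, X i → ℝ} (hρ : ∀ i, Measurable (ρ i)) (hpos : ∀ i x, 0 < ρ i x)
    [∀ i, IsProbabilityMeasure ((μ i).withDensity fun x => ENNReal.ofReal (ρ i x))]
    {A : Set (∀ i, X i)} (hA : MeasurableSet A) (t : ℝ) :
    Real.exp (-t) * ((Measure.pi fun i => (μ i).withDensity fun x => ENNReal.ofReal (ρ i x)).real A
      - (Measure.pi fun i => (μ i).withDensity fun x => ENNReal.ofReal (ρ i x)).real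
        {x | t < ∑ i, Real.log (ρ i (x i))}) ≤ (Measure.pi μ).real A := by
  set Q : Measure (∀ i, X i) := Measure.pi fun i => (μ i).withDensity fun x => ENNReal.ofReal (ρ i x)
    with hQ
  set B : Set (∀ i, X i) := A \ {x | t < ∑ i, Real.log (ρ i (x i))} with hB
  have hBm : MeasurableSet B := by
    refine hA.diff (measurableSet_lt measurable_const ?_)
    exact Finset.measurable_sum _ fun i _ =>
      Real.measurable_log.comp ((hρ i).comp (measurable_pi_apply i))
  have h1 : Q B ≤ ENNReal.ofReal (Real.exp t) * (Measure.pi μ) B := by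
    rw [hQ, pi_withDensity μ (fun i => (hρ i).ennreal_ofReal), withDensity_apply _ hBm]
    calc ∫⁻ x in B, ∏ i, ENNReal.ofReal (ρ i (x i)) ∂(Measure.pi μ)
        ≤ ∫⁻ x in B, ENNReal.ofReal (Real.exp t) ∂(Measure.pi μ) := by
          refine setLIntegral_mono_ae measurable_const.aemeasurable (ae_of_all _ fun x hx => ?_)
          rw [← ENNReal.ofReal_prod_of_nonneg (fun i _ => (hpos i _).le)]
          refine ENNReal.ofReal_le_ofReal ?_
          have h2 : ∑ i, Real.log (ρ i (x i)) ≤ t := not_lt.1 hx.2
          calc ∏ i, ρ i (x i) = ∏ i, Real.exp (Real.log (ρ i (x i))) :=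
                Finset.prod_congr rfl fun i _ => (Real.exp_log (hpos i _)).symm
            _ = Real.exp (∑ i, Real.log (ρ i (x i))) := (Real.exp_sum _ _).symm
            _ ≤ Real.exp t := Real.exp_le_exp.2 h2
      _ = ENNReal.ofReal (Real.exp t) * (Measure.pi μ) B := setLIntegral_const _ _
  have h2 : Q.real B ≤ Real.exp t * (Measure.pi μ).real B := by
    have h3 := ENNReal.toReal_mono (ENNReal.mul_ne_top ENNReal.ofReal_ne_top (measure_ne_top _ _)) h1
    rw [ENNReal.toReal_mul, ENNReal.toReal_ofReal (Real.exp_pos _).le] at h3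
    exact h3
  have h4 : Q.real A ≤ Q.real B + Q.real {x | t < ∑ i, Real.log (ρ i (x i))} := by
    refine (measureReal_mono (show A ⊆ B ∪ {x | t < ∑ i, Real.log (ρ i (x i))} from ?_)).trans
      (measureReal_union_le _ _)
    intro x hx
    by_cases hxt : t < ∑ i, Real.log (ρ i (x i))
    · exact Or.inr hxt
    · exact Or.inl ⟨hx, hxt⟩
  have h5 : (Measure.pi μ).real B ≤ (Measure.pi μ).real A := measureReal_mono sdiff_subset
  have h6 : Real.exp (-t) * Real.exp t = 1 := by rw [← Real.exp_add]; simp
  calc Real.exp (-t) * (Q.real A - Q.real {x | t < ∑ i, Real.log (ρ i (x i))})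
      ≤ Real.exp (-t) * (Real.exp t * (Measure.pi μ).real B) :=
        mul_le_mul_of_nonneg_left (by linarith) (Real.exp_pos _).le
    _ = (Measure.pi μ).real B := by rw [← mul_assoc, h6, one_mul]
    _ ≤ _ := h5

/-- **Weak law of large numbers** for bounded functions of independent coordinates (Chebyshev). -/
theorem chebyshev_sum (ν : ∀ i, Measure (X i)) [∀ i, IsProbabilityMeasure (ν i)]
    {g : ∀ i, X i → ℝ} (hg : ∀ i, Measurable (g i)) {B : ℝ} (hB : ∀ i x, |g i x| ≤ B)
    {s : ℝ} (hs : 0 < s) :
    (Measure.pi ν).real {x | s ≤ |∑ i, g i (x i) - ∑ i, ∫ y, g i y ∂(ν i)|}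
      ≤ Fintype.card n * B ^ 2 / s ^ 2 := by
  have hmem : ∀ i, MemLp (g i) 2 (ν i) := fun i =>
    MemLp.of_bound (hg i).aestronglyMeasurable B (ae_of_all _ fun x => by simpa using hB i x)
  set S : (∀ i, X i) → ℝ := ∑ i, fun x => g i (x i) with hS
  have hSx : ∀ x, S x = ∑ i, g i (x i) := fun x => by rw [hS, Finset.sum_apply]
  have hSmem : MemLp S 2 (Measure.pi ν) := by
    rw [hS]
    exact memLp_finsetSum' _ fun i _ => (hmem i).comp_measurePreserving (measurePreserving_eval _ i)
  have hmean : ∫ x, S x ∂(Measure.pi ν) = ∑ i, ∫ y, g i y ∂(ν i) := by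
    simp_rw [hSx]
    rw [integral_finsetSum]
    · refine Finset.sum_congr rfl fun i _ => ?_
      have h := integral_map (μ := Measure.pi ν) (φ := Function.eval i) (f := g i)
        (measurable_pi_apply i).aemeasurable (hg i).aestronglyMeasurable
      rw [(measurePreserving_eval ν i).map_eq] at h
      exact h.symm
    · intro i _
      exact ((hmem i).comp_measurePreserving (measurePreserving_eval _ i)).integrable (by norm_num)
  have hvar : Var[S; Measure.pi ν] ≤ Fintype.card n * B ^ 2 := by
    rw [hS, variance_sum_pi hmem]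
    calc ∑ i, Var[g i; ν i] ≤ ∑ _i : n, B ^ 2 := by
          refine Finset.sum_le_sum fun i _ => ?_
          refine (variance_le_expectation_sq (hg i).aestronglyMeasurable).trans ?_
          calc ∫ y, (g i ^ 2) y ∂(ν i) ≤ ∫ _y, B ^ 2 ∂(ν i) := by
                refine integral_mono_of_nonneg (ae_of_all _ fun y => sq_nonneg _)
                  (integrable_const _) (ae_of_all _ fun y => ?_)
                simp only [Pi.pow_apply]
                exact sq_le_sq' (by linarith [neg_le_of_abs_le (hB i y)])
                  ((le_abs_self _).trans (hB i y))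
            _ = B ^ 2 := by simp
      _ = Fintype.card n * B ^ 2 := by simp
  have h1 := meas_ge_le_variance_div_sq hSmem hs
  have h2 : {x : ∀ i, X i | s ≤ |∑ i, g i (x i) - ∑ i, ∫ y, g i y ∂(ν i)|}
      = {x | s ≤ |S x - ∫ x, S x ∂(Measure.pi ν)|} := by
    ext x
    simp only [mem_ofPred_eq]
    rw [hmean, hSx]
  rw [h2]
  have h3 := ENNReal.toReal_mono ENNReal.ofReal_ne_top h1
  rw [ENNReal.toReal_ofReal (div_nonneg (variance_nonneg _ _) (sq_nonneg _))] at h3
  exact h3.trans (div_le_div_of_nonneg_right hvar (sq_nonneg _))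

end Pool.Agent.Lib.MP_fa244c_mp
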