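import Pool.Agent.Lib.MP_fa244c_mp.LDP.Sanov

/-!
# Large deviation upper bound for energies that are exponentially well approximated by continuous
functions of the two empirical measures
-/

open MeasureTheory Filter Topology Set InformationTheory Metric
open scoped ENNReal NNReal BoundedContinuousFunction

namespace Pool.Agent.Lib.MP_fa244c_mp

variable {X : Type*} [MeasurableSpace X] [TopologicalSpace X]
  [TopologicalSpace.PseudoMetrizableSpace X] [BorelSpace X] [CompactSpace X] [T2Space X]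

/-- `e` is continuous on sublevel sets of the entropy when it is a uniform limit there -/
lemma continuousOn_energy (lam : ProbabilityMeasure X)
    {e : ProbabilityMeasure X × ProbabilityMeasure X → ℝ}
    {eR : ℕ → ProbabilityMeasure X × ProbabilityMeasure X → ℝ} (hcont : ∀ R, Continuous (eR R))
    {K : ℝ≥0∞} (hdet : ∀ δ : ℝ, 0 < δ → ∃ R0 : ℕ, ∀ R, R0 ≤ R → ∀ q, kl2 lam q ≤ K →
      |eR R q - e q| ≤ δ) :
    ContinuousOn e {q | kl2 lam q ≤ K} := by
  have h : TendstoUniformlyOn eR e atTop {q | kl2 lam q ≤ K} := by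
    rw [Metric.tendstoUniformlyOn_iff]
    intro δ hδ
    obtain ⟨R0, hR0⟩ := hdet (δ / 2) (half_pos hδ)
    filter_upwards [eventually_ge_atTop R0] with R hR q hq
    rw [dist_comm, Real.dist_eq]
    exact lt_of_le_of_lt (hR0 R hR q hq) (half_lt_self hδ)
  exact h.continuousOn (Frequently.of_forall fun R => (hcont R).continuousOn)

/-- **Upper bound.** If no state in the closed set `F` with energy in the closed set `J` has total
entropy `≤ K`, then the probability that the empirical measures are in `F` and the energy is within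
`δ` of `J` is at most `A exp (-K M)`, for some `δ > 0`. -/
theorem contraction_upper (lam : ProbabilityMeasure X)
    (H : (M : ℕ) → (Fin M ⊕ Fin M → X) → ℝ)
    {e : ProbabilityMeasure X × ProbabilityMeasure X → ℝ}
    {eR : ℕ → ProbabilityMeasure X × ProbabilityMeasure X → ℝ} (hcont : ∀ R, Continuous (eR R))
    (hdet : ∀ K : ℝ, ∀ δ : ℝ, 0 < δ → ∃ R0 : ℕ, ∀ R, R0 ≤ R → ∀ q,
      kl2 lam q ≤ ENNReal.ofReal K → |eR R q - e q| ≤ δ)
    (hprob : ∀ K : ℝ, ∀ δ : ℝ, 0 < δ → ∃ R0 : ℕ, ∀ R, R0 ≤ R → ∃ A : ℝ, ∀ (M : ℕ) [NeZero M],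
      (Measure.pi fun _ : Fin M ⊕ Fin M => (lam : Measure X)).real
        {x | δ < |H M x - eR R (emp2 x)|} ≤ A * Real.exp (-(K * M)))
    {F : Set (ProbabilityMeasure X × ProbabilityMeasure X)} (hF : IsClosed F)
    {J : Set ℝ} (hJ : IsClosed J) {K : ℝ}
    (h : ∀ q ∈ F, e q ∈ J → ENNReal.ofReal K < kl2 lam q) :
    ∃ δ : ℝ, 0 < δ ∧ ∃ A : ℝ, 0 ≤ A ∧ ∀ (M : ℕ) [NeZero M],
      (Measure.pi fun _ : Fin M ⊕ Fin M => (lam : Measure X)).real
        {x | emp2 x ∈ F ∧ ∃ y ∈ J, |H M x - y| ≤ δ} ≤ A * Real.exp (-(K * M)) := by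
  classical
  set S : Set (ProbabilityMeasure X × ProbabilityMeasure X) :=
    F ∩ {q | kl2 lam q ≤ ENNReal.ofReal K} with hS
  have hSc : IsCompact S := (hF.inter (isClosed_kl2_le lam _)).isCompact
  have hcontS : ContinuousOn e S :=
    (continuousOn_energy lam hcont (hdet K)).mono inter_subset_right
  have hdisj : Disjoint (e '' S) J := by
    rw [Set.disjoint_left]
    rintro _ ⟨q, hq, rfl⟩ hqJ
    exact absurd hq.2 (not_le.2 (h q hq.1 hqJ))
  obtain ⟨δ0, hδ0, hd⟩ := hdisj.exists_cthickenings (hSc.image_of_continuousOn hcontS) hJ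
  have hfar : ∀ q ∈ S, ∀ y ∈ J, δ0 < |e q - y| := by
    intro q hq y hy
    by_contra hcon
    push Not at hcon
    have h1 : e q ∈ cthickening δ0 J :=
      mem_cthickening_of_dist_le _ y _ _ hy (by rw [Real.dist_eq]; exact hcon)
    have h2 : e q ∈ cthickening δ0 (e '' S) := self_subset_cthickening _ ⟨q, hq, rfl⟩
    exact Set.disjoint_left.1 hd h2 h1
  set δ := δ0 / 4 with hδ
  have hδpos : 0 < δ := by rw [hδ]; positivity
  obtain ⟨R1, hR1⟩ := hdet K δ hδpos
  obtain ⟨R2, hR2⟩ := hprob K δ hδpos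
  set R := max R1 R2 with hR
  obtain ⟨A2, hA2⟩ := hR2 R (le_max_right _ _)
  have hdetR := hR1 R (le_max_left _ _)
  set C : Set (ProbabilityMeasure X × ProbabilityMeasure X) :=
    F ∩ (eR R) ⁻¹' (cthickening (2 * δ) J) with hC
  have hCc : IsClosed C := hF.inter (isClosed_cthickening.preimage (hcont R))
  have hCK : ∀ q ∈ C, ENNReal.ofReal K < kl2 lam q := by
    intro q hq
    by_contra hcon
    push Not at hcon
    have hqS : q ∈ S := ⟨hq.1, hcon⟩
    have h1 : eR R q ∈ cthickening (2 * δ) J := hq.2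
    rw [hJ.cthickening_eq_biUnion_closedBall (by positivity)] at h1
    simp only [mem_iUnion, mem_closedBall, exists_prop] at h1
    obtain ⟨y, hy, h2⟩ := h1
    rw [Real.dist_eq] at h2
    have h3 := hdetR q hcon
    have h4 := hfar q hqS y hy
    have h5 : |e q - y| ≤ |eR R q - e q| + |eR R q - y| := by
      rw [abs_sub_comm (eR R q) (e q)]
      exact abs_sub_le _ _ _
    linarith
  obtain ⟨A1, hA10, hA1⟩ := sanov_upper lam hCc hCK
  refine ⟨δ, hδpos, A1 + |A2|, by positivity, ?_⟩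
  intro M hM
  have hsub : {x : Fin M ⊕ Fin M → X | emp2 x ∈ F ∧ ∃ y ∈ J, |H M x - y| ≤ δ}
      ⊆ {x | emp2 x ∈ C} ∪ {x | δ < |H M x - eR R (emp2 x)|} := by
    rintro x ⟨hx, y, hy, hxy⟩
    by_cases hc : δ < |H M x - eR R (emp2 x)|
    · exact Or.inr hc
    · left
      push Not at hc
      refine ⟨hx, ?_⟩
      refine mem_cthickening_of_dist_le _ y _ _ hy ?_
      rw [Real.dist_eq]
      have : |eR R (emp2 x) - y| ≤ |H M x - eR R (emp2 x)| + |H M x - y| := by
        rw [abs_sub_comm (H M x) (eR R (emp2 x))]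
        exact abs_sub_le _ _ _
      linarith
  refine (measureReal_mono hsub).trans ?_
  refine (measureReal_union_le _ _).trans ?_
  have h1 := hA1 (Fin M) (Fin M) rfl
  rw [Fintype.card_fin] at h1
  have h2 := hA2 M
  have h3 : A2 * Real.exp (-(K * M)) ≤ |A2| * Real.exp (-(K * M)) :=
    mul_le_mul_of_nonneg_right (le_abs_self _) (Real.exp_pos _).le
  rw [add_mul]
  exact add_le_add h1 (h2.trans h3)

end Pool.Agent.Lib.MP_fa244c_mp
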