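import Pool.Agent.Lib.MP_fa244c_mp.LDP.TailLog

open MeasureTheory Filter Topology Set
open scoped ENNReal NNReal

namespace Pool.Agent.Lib.MP_fa244c_mp

variable {X : Type*} [MeasurableSpace X]

section product

/-- the product of the one step weights; the coordinate `0` is the newest point -/
noncomputable def W (φ : X → ℂ) (s T : ℝ) : (m : ℕ) → (Fin m → X) → ℝ≥0∞
  | 0, _ => 1
  | m + 1, z => W φ s T m (Fin.tail z) * wt φ s T (Fin.tail z) (z 0)

/-- the sum over pairs, recursively -/
noncomputable def S (φ : X → ℂ) (s : ℝ) : (m : ℕ) → (Fin m → X) → ℝ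
  | 0, _ => 0
  | m + 1, z => S φ s m (Fin.tail z) + ∑ j, lgp s (φ (Fin.tail z j)) (φ (z 0))

omit [MeasurableSpace X] in
lemma sum_sum_lgp (φ : X → ℂ) (s : ℝ) (m : ℕ) (z : Fin m → X) :
    ∑ i, ∑ j, lgp s (φ (z i)) (φ (z j)) = 2 * S φ s m z := by
  induction m with
  | zero => simp [S]
  | succ m ih =>
    simp only [S]
    rw [Fin.sum_univ_succ]
    simp_rw [Fin.sum_univ_succ (fun j => lgp s (φ (z _)) (φ (z j)))]
    rw [Finset.sum_add_distrib, lgp_self]
    have h1 := ih (Fin.tail z)
    have h2 : ∑ i : Fin m, ∑ j : Fin m, lgp s (φ (z i.succ)) (φ (z j.succ))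
        = ∑ i, ∑ j, lgp s (φ (Fin.tail z i)) (φ (Fin.tail z j)) := rfl
    rw [h2, h1]
    have h3 : ∑ i : Fin m, lgp s (φ (z 0)) (φ (z i.succ))
        = ∑ j, lgp s (φ (Fin.tail z j)) (φ (z 0)) :=
      Finset.sum_congr rfl fun j _ => lgp_comm _ _ _
    have h4 : ∑ i : Fin m, lgp s (φ (z i.succ)) (φ (z 0))
        = ∑ j, lgp s (φ (Fin.tail z j)) (φ (z 0)) := rfl
    rw [h3, h4]
    ring

omit [MeasurableSpace X] in
lemma cnt_tail_le (φ : X → ℂ) (s : ℝ) {m : ℕ} (z : Fin (m + 1) → X) (a : ℤ × ℤ) :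
    cnt φ s (Fin.tail z) a ≤ cnt φ s z a := by
  unfold cnt
  refine Finset.card_le_card_of_injOn Fin.succ ?_ (Fin.succ_injective m).injOn
  intro j hj
  simp only [Finset.coe_filter, Finset.mem_univ, true_and, mem_ofPred_eq] at hj ⊢
  exact hj

omit [MeasurableSpace X] in
/-- on the event that no cell is overcrowded, `W` is the exponential of the pair sum -/
lemma W_eq (φ : X → ℂ) {s D : ℝ} (hs : 0 < s) (T : ℝ) (hb : ∀ x, ‖φ x‖ ≤ D) (m : ℕ)
    (z : Fin m → X) (h : ∀ a ∈ cells s D, (cnt φ s z a : ℝ) ≤ T) :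
    W φ s T m z = ENNReal.ofReal (Real.exp (T⁻¹ * S φ s m z)) := by
  induction m with
  | zero => simp [W, S]
  | succ m ih =>
    have h' : ∀ a ∈ cells s D, (cnt φ s (Fin.tail z) a : ℝ) ≤ T := fun a ha =>
      le_trans (by exact_mod_cast cnt_tail_le φ s z a) (h a ha)
    simp only [W, S]
    rw [ih _ h']
    unfold wt
    rw [if_pos (h' _ (cell_mem_cells hs (hb _))), ← ENNReal.ofReal_mul (Real.exp_pos _).le,
      ← Real.exp_add]
    congr 2
    ring

lemma measurable_wt {α : Type*} [MeasurableSpace α] {φ : X → ℂ} (hφ : Measurable φ) (s T : ℝ)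
    (m : ℕ) {p : α → Fin m → X} {x : α → X} (hp : Measurable p) (hx : Measurable x) :
    Measurable fun q : α => wt φ s T (p q) (x q) := by
  classical
  have hpj : ∀ j, Measurable fun q => φ (p q j) := fun j =>
    hφ.comp ((measurable_pi_apply j).comp hp)
  have hxφ : Measurable fun q => φ (x q) := hφ.comp hx
  have hc : Measurable fun q : α => (cnt φ s (p q) (cell s (φ (x q))) : ℝ) := by
    have h1 : ∀ q : α, (cnt φ s (p q) (cell s (φ (x q))) : ℝ)
        = ∑ j : Fin m, (if ‖φ (p q j) - corner s (cell s (φ (x q)))‖ ≤ 3 * s then (1 : ℝ) else 0) := by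
      intro q
      unfold cnt
      rw [Finset.card_filter]
      push_cast
      rfl
    simp_rw [h1]
    refine Finset.measurable_sum _ fun j _ => ?_
    refine Measurable.ite (measurableSet_le ?_ measurable_const) measurable_const measurable_const
    have h3 : Measurable (corner s) := Measurable.of_discrete
    exact ((hpj j).sub (h3.comp ((measurable_cell s).comp hxφ))).norm
  unfold wt
  refine Measurable.ite (measurableSet_le hc measurable_const) ?_ measurable_const
  refine ENNReal.measurable_ofReal.comp (Real.measurable_exp.comp (Measurable.const_mul ?_ _))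
  refine Finset.measurable_sum _ fun j _ => ?_
  exact (measurable_lgp s).comp ((hpj j).prodMk hxφ)

lemma measurable_tail (m : ℕ) :
    Measurable (Fin.tail : (Fin (m + 1) → X) → (Fin m → X)) :=
  measurable_pi_iff.2 fun j => measurable_pi_apply (Fin.succ j)

lemma measurable_W {φ : X → ℂ} (hφ : Measurable φ) (s T : ℝ) (m : ℕ) : Measurable (W φ s T m) := by
  induction m with
  | zero =>
    have h : W φ s T 0 = fun _ => 1 := by
      funext z
      simp only [W]
    rw [h]
    exact measurable_const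
  | succ m ih =>
    have h : W φ s T (m + 1)
        = fun z => W φ s T m (Fin.tail z) * wt φ s T (Fin.tail z) (z 0) := by
      funext z
      simp only [W]
    rw [h]
    have h1 : Measurable fun z : Fin (m + 1) → X => W φ s T m (Fin.tail z) :=
      ih.comp (measurable_tail m)
    have h3 : Measurable fun z : Fin (m + 1) → X => wt φ s T (Fin.tail z) (z 0) :=
      measurable_wt hφ s T m (measurable_tail m) (measurable_pi_apply 0)
    exact h1.mul h3

set_option maxHeartbeats 400000 in
lemma lintegral_W_le {lam : Measure X} {φ : X → ℂ} {C D : ℝ} (hd : PosData lam φ C D)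
    {s T : ℝ} (hs : 0 < s) (hs1 : s ≤ 1) (hT : 0 < T) (m : ℕ) :
    ∫⁻ z, W φ s T m z ∂(Measure.pi fun _ : Fin m => lam)
      ≤ ENNReal.ofReal (1 + 4 * C * (2 * D + 5) ^ 2) ^ m := by
  have hprob := hd.prob
  induction m with
  | zero => simp [W]
  | succ m ih =>
    have hmp := (measurePreserving_piFinSuccAbove (fun _ : Fin (m + 1) => lam) 0).symm
    rw [← hmp.lintegral_comp (measurable_W hd.meas s T (m + 1))]
    have h1 : ∀ q : X × (Fin m → X), W φ s T (m + 1)
        ((MeasurableEquiv.piFinSuccAbove (fun _ : Fin (m + 1) => X) 0).symm q)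
        = W φ s T m q.2 * wt φ s T q.2 q.1 := by
      rintro ⟨a, b⟩
      have h2 : (MeasurableEquiv.piFinSuccAbove (fun _ : Fin (m + 1) => X) 0).symm (a, b)
          = Fin.cons a b := by
        simp [MeasurableEquiv.piFinSuccAbove, Fin.insertNthEquiv]
      rw [h2]
      simp [W, Fin.tail_cons, Fin.cons_zero]
    simp_rw [h1]
    have hmeas : Measurable fun q : X × (Fin m → X) => W φ s T m q.2 * wt φ s T q.2 q.1 :=
      ((measurable_W hd.meas s T m).comp measurable_snd).mul
        (measurable_wt hd.meas s T m measurable_snd measurable_fst)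
    rw [lintegral_prod_symm' _ hmeas]
    calc ∫⁻ b, ∫⁻ a, W φ s T m b * wt φ s T b a ∂lam ∂(Measure.pi fun _ : Fin m => lam)
        ≤ ∫⁻ b, W φ s T m b * ENNReal.ofReal (1 + 4 * C * (2 * D + 5) ^ 2)
            ∂(Measure.pi fun _ : Fin m => lam) := by
          refine lintegral_mono fun b => ?_
          have hwtm : Measurable fun a => wt φ s T b a :=
            measurable_wt hd.meas s T m measurable_const measurable_id
          rw [lintegral_const_mul _ hwtm]
          gcongr
          exact lintegral_wt_le hd hs hs1 hT b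
      _ = (∫⁻ b, W φ s T m b ∂(Measure.pi fun _ : Fin m => lam))
            * ENNReal.ofReal (1 + 4 * C * (2 * D + 5) ^ 2) :=
          lintegral_mul_const _ (measurable_W hd.meas s T m)
      _ ≤ ENNReal.ofReal (1 + 4 * C * (2 * D + 5) ^ 2) ^ (m + 1) := by
          rw [pow_succ]
          exact mul_le_mul' ih le_rfl

end product

section crowd

/-- probability that many points fall in the same small ball -/
lemma measure_cnt_gt_le {lam : Measure X} {φ : X → ℂ} {C D : ℝ} (hd : PosData lam φ C D)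
    {s T : ℝ} (hs : 0 < s) (hT : 0 ≤ T) (N : ℕ) (a : ℤ × ℤ) :
    (Measure.pi fun _ : Fin N => lam) {z | T < (cnt φ s z a : ℝ)}
      ≤ ENNReal.ofReal (2 ^ N * (9 * C * s ^ 2) ^ (⌊T⌋₊ + 1)) := by
  classical
  have hprob := hd.prob
  have hC := hd.C_nonneg
  set B : Set X := {x | ‖φ x - corner s a‖ ≤ 3 * s} with hB
  have hBm : lam B ≤ ENNReal.ofReal (9 * C * s ^ 2) := by
    refine (hd.ball (corner s a) (3 * s) (by positivity)).trans (ENNReal.ofReal_le_ofReal ?_)
    ring_nf
    exact le_rfl
  set k : ℕ := ⌊T⌋₊ + 1 with hk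
  have hsub : {z : Fin N → X | T < (cnt φ s z a : ℝ)} ⊆
      ⋃ I ∈ (Finset.powersetCard k (Finset.univ : Finset (Fin N))),
        Set.pi univ (fun i => if i ∈ I then B else univ) := by
    intro z hz
    have h1 : k ≤ cnt φ s z a := by
      have h2 : T < (cnt φ s z a : ℝ) := hz
      have h3 : ⌊T⌋₊ < cnt φ s z a := (Nat.floor_lt hT).2 h2
      exact h3
    unfold cnt at h1
    obtain ⟨I, hI, hIc⟩ := Finset.exists_subset_card_eq h1
    simp only [mem_iUnion]
    refine ⟨I, Finset.mem_powersetCard.2 ⟨Finset.subset_univ _, hIc⟩, ?_⟩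
    intro i _
    by_cases hi : i ∈ I
    · simp only [hi, if_true]
      have := hI hi
      simpa [hB] using this
    · simp [hi]
  refine (measure_mono hsub).trans ?_
  refine (measure_biUnion_finset_le _ _).trans ?_
  have h4 : ∀ I ∈ (Finset.powersetCard k (Finset.univ : Finset (Fin N))),
      (Measure.pi fun _ : Fin N => lam) (Set.pi univ (fun i => if i ∈ I then B else univ))
        ≤ ENNReal.ofReal ((9 * C * s ^ 2) ^ k) := by
    intro I hI
    rw [Measure.pi_pi]
    have h5 : ∀ i : Fin N, lam (if i ∈ I then B else univ) = if i ∈ I then lam B else 1 := by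
      intro i
      by_cases hi : i ∈ I <;> simp [hi]
    simp_rw [h5]
    rw [Finset.prod_ite_mem, Finset.univ_inter, Finset.prod_const, (Finset.mem_powersetCard.1 hI).2,
      ENNReal.ofReal_pow (by positivity)]
    exact pow_le_pow_left' hBm k
  refine (Finset.sum_le_sum h4).trans ?_
  rw [Finset.sum_const, nsmul_eq_mul, Finset.card_powersetCard, Finset.card_univ, Fintype.card_fin,
    ← ENNReal.ofReal_natCast, ← ENNReal.ofReal_mul (by positivity)]
  refine ENNReal.ofReal_le_ofReal ?_
  refine mul_le_mul_of_nonneg_right ?_ (by positivity)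
  exact_mod_cast Nat.choose_le_two_pow N k

end crowd

section tail

/-- **Tail of the logarithmic pair energy.** For every rate `K` and every `δ > 0`, if the truncation
scale `s` is small enough then the probability that the pair sum of `(log (s/|z - w|))⁺` exceeds
`δ N²` is at most `A exp (-K N)`. -/
theorem tail_log {lam : Measure X} {φ : X → ℂ} {C D : ℝ} (hd : PosData lam φ C D)
    (K : ℝ) {δ : ℝ} (hδ : 0 < δ) :
    ∃ R0 : ℝ, 0 ≤ R0 ∧ ∀ R, R0 ≤ R → ∃ A : ℝ, 0 ≤ A ∧ ∀ N : ℕ, 0 < N →
      (Measure.pi fun _ : Fin N => lam).real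
        {z | δ * N ^ 2 < ∑ i, ∑ j, lgp (Real.exp (-R)) (φ (z i)) (φ (z j))}
        ≤ A * Real.exp (-(K * N)) := by
  classical
  have hprob := hd.prob
  have hC := hd.C_nonneg
  wlog hK : 0 ≤ K generalizing K
  · obtain ⟨R0, h0, h⟩ := this 0 le_rfl
    refine ⟨R0, h0, fun R hR => ?_⟩
    obtain ⟨A, hA, h1⟩ := h R hR
    refine ⟨A, hA, fun N hN => (h1 N hN).trans ?_⟩
    refine mul_le_mul_of_nonneg_left (Real.exp_le_exp.2 ?_) hA
    have : K * N ≤ 0 := mul_nonpos_of_nonpos_of_nonneg (le_of_not_ge hK) (Nat.cast_nonneg N)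
    linarith
  set C2 : ℝ := 1 + 4 * C * (2 * D + 5) ^ 2 with hC2
  have hC2pos : 1 ≤ C2 := by rw [hC2]; nlinarith [mul_nonneg hC (sq_nonneg (2 * D + 5))]
  set R0 : ℝ := max (max 1 (Real.log (9 * C + 1))) (2 * (K + 1) * (K + Real.log C2) / δ) with hR0
  refine ⟨R0, le_trans zero_le_one ((le_max_left _ _).trans (le_max_left _ _)), ?_⟩
  intro R hR
  have hR1 : 1 ≤ R := ((le_max_left _ _).trans (le_max_left _ _)).trans hR
  have hR2 : Real.log (9 * C + 1) ≤ R := ((le_max_right _ _).trans (le_max_left _ _)).trans hR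
  have hR3 : 2 * (K + 1) * (K + Real.log C2) / δ ≤ R := (le_max_right _ _).trans hR
  set s : ℝ := Real.exp (-R) with hs
  have hs0 : 0 < s := Real.exp_pos _
  have hs1 : s ≤ 1 := by
    rw [hs, ← Real.exp_zero]
    exact Real.exp_le_exp.2 (by linarith)
  have h9 : 9 * C * s ^ 2 ≤ Real.exp (-R) := by
    have h1 : 9 * C + 1 ≤ Real.exp R := by
      rw [← Real.log_le_iff_le_exp (by positivity)]
      exact hR2
    have h2 : s ^ 2 = Real.exp (-R) * Real.exp (-R) := by rw [hs, sq]
    have h3 : Real.exp R * Real.exp (-R) = 1 := by rw [← Real.exp_add]; simp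
    rw [h2]
    have h4 := Real.exp_pos (-R)
    calc 9 * C * (Real.exp (-R) * Real.exp (-R)) = (9 * C) * Real.exp (-R) * Real.exp (-R) := by ring
      _ ≤ Real.exp R * Real.exp (-R) * Real.exp (-R) := by gcongr; linarith
      _ = Real.exp (-R) := by rw [h3, one_mul]
  have h9' : 9 * C * s ^ 2 ≤ 1 := h9.trans (by rw [← Real.exp_zero]; exact Real.exp_le_exp.2 (by linarith))
  refine ⟨(cells s D).card + 1, by positivity, ?_⟩
  intro N hN
  have hNpos : (0 : ℝ) < N := by exact_mod_cast hN
  set T : ℝ := (K + 1) / R * N with hT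
  have hRpos : 0 < R := by linarith
  have hTpos : 0 < T := by rw [hT]; positivity
  -- the event splits
  have hsub : {z : Fin N → X | δ * N ^ 2 < ∑ i, ∑ j, lgp s (φ (z i)) (φ (z j))} ⊆
      (⋃ a ∈ cells s D, {z | T < (cnt φ s z a : ℝ)}) ∪
      {z | ENNReal.ofReal (Real.exp (T⁻¹ * (δ * N ^ 2 / 2))) ≤ W φ s T N z} := by
    intro z hz
    by_cases hcr : ∀ a ∈ cells s D, (cnt φ s z a : ℝ) ≤ T
    · right
      have hz' : δ * N ^ 2 < ∑ i, ∑ j, lgp s (φ (z i)) (φ (z j)) := hz
      rw [sum_sum_lgp] at hz'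
      rw [mem_ofPred_eq, W_eq φ hs0 T hd.bound N z hcr]
      refine ENNReal.ofReal_le_ofReal (Real.exp_le_exp.2 ?_)
      refine mul_le_mul_of_nonneg_left (by linarith) (by positivity)
    · left
      push Not at hcr
      obtain ⟨a, ha, hTa⟩ := hcr
      exact mem_biUnion ha hTa
  have hleft : (Measure.pi fun _ : Fin N => lam) (⋃ a ∈ cells s D, {z | T < (cnt φ s z a : ℝ)})
      ≤ ENNReal.ofReal ((cells s D).card * Real.exp (-(K * N))) := by
    refine (measure_biUnion_finset_le _ _).trans ?_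
    calc ∑ a ∈ cells s D, (Measure.pi fun _ : Fin N => lam) {z | T < (cnt φ s z a : ℝ)}
        ≤ ∑ _a ∈ cells s D, ENNReal.ofReal (Real.exp (-(K * N))) := by
          refine Finset.sum_le_sum fun a _ => ?_
          refine (measure_cnt_gt_le hd hs0 hTpos.le N a).trans (ENNReal.ofReal_le_ofReal ?_)
          have h1 : (9 * C * s ^ 2) ^ (⌊T⌋₊ + 1) ≤ Real.exp (-R) ^ (⌊T⌋₊ + 1) :=
            pow_le_pow_left₀ (by positivity) h9 _
          have h2 : Real.exp (-R) ^ (⌊T⌋₊ + 1) ≤ Real.exp (-((K + 1) * N)) := by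
            rw [← Real.exp_nat_mul]
            refine Real.exp_le_exp.2 ?_
            have h3 : T ≤ ((⌊T⌋₊ + 1 : ℕ) : ℝ) := by
              push_cast
              exact (Nat.lt_floor_add_one T).le
            have h4 : R * T = (K + 1) * N := by rw [hT]; field_simp
            have h5 : R * T ≤ R * ((⌊T⌋₊ + 1 : ℕ) : ℝ) := mul_le_mul_of_nonneg_left h3 hRpos.le
            linarith
          have h6 : (2 : ℝ) ^ N ≤ Real.exp N := by
            have h7 : (2 : ℝ) ≤ Real.exp 1 := by
              have := Real.add_one_le_exp (1 : ℝ)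
              linarith
            calc (2 : ℝ) ^ N ≤ (Real.exp 1) ^ N := pow_le_pow_left₀ (by norm_num) h7 N
              _ = Real.exp N := by rw [← Real.exp_nat_mul, mul_one]
          calc 2 ^ N * (9 * C * s ^ 2) ^ (⌊T⌋₊ + 1) ≤ Real.exp N * Real.exp (-((K + 1) * N)) :=
                mul_le_mul h6 (h1.trans h2) (by positivity) (Real.exp_pos _).le
            _ = Real.exp (-(K * N)) := by rw [← Real.exp_add]; congr 1; ring
      _ = ENNReal.ofReal ((cells s D).card * Real.exp (-(K * N))) := by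
          rw [Finset.sum_const, nsmul_eq_mul, ENNReal.ofReal_mul (Nat.cast_nonneg _),
            ENNReal.ofReal_natCast]
  have hright : (Measure.pi fun _ : Fin N => lam)
      {z | ENNReal.ofReal (Real.exp (T⁻¹ * (δ * N ^ 2 / 2))) ≤ W φ s T N z}
      ≤ ENNReal.ofReal (Real.exp (-(K * N))) := by
    have h1 := mul_meas_ge_le_lintegral₀ (μ := Measure.pi fun _ : Fin N => lam)
      (measurable_W hd.meas s T N).aemeasurable
      (ENNReal.ofReal (Real.exp (T⁻¹ * (δ * N ^ 2 / 2))))
    have h2 := h1.trans (lintegral_W_le hd hs0 hs1 hTpos N)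
    rw [← hC2] at h2
    have h3 : ENNReal.ofReal C2 ^ N ≤ ENNReal.ofReal (Real.exp (T⁻¹ * (δ * N ^ 2 / 2)))
        * ENNReal.ofReal (Real.exp (-(K * N))) := by
      rw [← ENNReal.ofReal_pow (by positivity), ← ENNReal.ofReal_mul (Real.exp_pos _).le,
        ← Real.exp_add]
      refine ENNReal.ofReal_le_ofReal ?_
      have h4 : C2 ^ N = Real.exp (N * Real.log C2) := by
        rw [Real.exp_nat_mul, Real.exp_log (by linarith)]
      rw [h4]
      refine Real.exp_le_exp.2 ?_
      have h5 : T⁻¹ * (δ * N ^ 2 / 2) = R * δ / (2 * (K + 1)) * N := by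
        rw [hT]
        field_simp
      rw [h5]
      have h6 : K + Real.log C2 ≤ R * δ / (2 * (K + 1)) := by
        rw [le_div_iff₀ (by positivity)]
        rw [div_le_iff₀ hδ] at hR3
        linarith
      have h7 := mul_le_mul_of_nonneg_right h6 hNpos.le
      linarith
    have h8 := h2.trans h3
    rwa [ENNReal.mul_le_mul_iff_right (by simp [Real.exp_pos]) ENNReal.ofReal_ne_top] at h8
  have htot := (measure_mono hsub).trans ((measure_union_le _ _).trans (add_le_add hleft hright))
  rw [← ENNReal.ofReal_add (by positivity) (Real.exp_pos _).le] at htot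
  have h9 := ENNReal.toReal_mono ENNReal.ofReal_ne_top htot
  rw [ENNReal.toReal_ofReal (by positivity)] at h9
  refine h9.trans (le_of_eq ?_)
  ring

end tail

end Pool.Agent.Lib.MP_fa244c_mp
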