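import Pool.Agent.Lib.MP_fa244c_mp.LDP.Sanov
import Pool.Agent.Lib.MP_fa244c_mp.LDP.TailLog2

/-!
# Deterministic estimates on sublevel sets of the entropy
-/

open MeasureTheory Filter Topology Set InformationTheory
open scoped ENNReal NNReal

namespace Pool.Agent.Lib.MP_fa244c_mp

variable {X : Type*} [MeasurableSpace X]

/-- a set of small reference measure has small measure under a measure of bounded entropy -/
lemma measureReal_le_of_klDiv_le {lam mu : Measure X} [IsProbabilityMeasure lam]
    [IsProbabilityMeasure mu] {K t : ℝ} (hK : 0 ≤ K) (h : klDiv mu lam ≤ ENNReal.ofReal K)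
    {A : Set X} (hA : MeasurableSet A) (ht : 0 < t) (hAl : lam.real A ≤ Real.exp (-t)) :
    mu.real A ≤ (K + 1) / t := by
  obtain ⟨hac, hint⟩ := klDiv_ne_top_iff.1 (ne_top_of_le_ne_top ENNReal.ofReal_ne_top h)
  have h1 := dv_le_toReal_klDiv hac hint (f := A.indicator fun _ => t)
    (measurable_const.indicator hA) (B := t) (fun x => by
      by_cases hx : x ∈ A
      · simp [hx, abs_of_pos ht]
      · simp [hx, ht.le])
  have h2 : (klDiv mu lam).toReal ≤ K := ENNReal.toReal_le_of_le_ofReal hK h
  unfold dv at h1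
  have h3 : ∫ x, A.indicator (fun _ => t) x ∂mu = t * mu.real A := by
    rw [integral_indicator hA, setIntegral_const, smul_eq_mul, mul_comm]
  have h4 : ∫ x, Real.exp (A.indicator (fun _ => t) x) ∂lam ≤ 2 := by
    have h5 : ∀ x, Real.exp (A.indicator (fun _ => t) x) ≤ 1 + A.indicator (fun _ => Real.exp t) x := by
      intro x
      by_cases hx : x ∈ A
      · simp [hx]
      · simp [hx]
    have h6 : ∫ x, Real.exp (A.indicator (fun _ => t) x) ∂lam
        ≤ ∫ x, (1 + A.indicator (fun _ => Real.exp t) x) ∂lam := by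
      refine integral_mono_of_nonneg (ae_of_all _ fun x => (Real.exp_pos _).le)
        ((integrable_const _).add ((integrable_const _).indicator hA)) (ae_of_all _ h5)
    refine h6.trans ?_
    rw [integral_add (integrable_const _) ((integrable_const _).indicator hA),
      integral_indicator hA, setIntegral_const, smul_eq_mul]
    simp only [integral_const, probReal_univ, smul_eq_mul, one_mul]
    have h7 : lam.real A * Real.exp t ≤ 1 := by
      calc lam.real A * Real.exp t ≤ Real.exp (-t) * Real.exp t :=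
            mul_le_mul_of_nonneg_right hAl (Real.exp_pos _).le
        _ = 1 := by rw [← Real.exp_add]; simp
    linarith
  have h8 : Real.log (∫ x, Real.exp (A.indicator (fun _ => t) x) ∂lam) ≤ 1 := by
    have hpos : 0 < ∫ x, Real.exp (A.indicator (fun _ => t) x) ∂lam := by
      refine integral_exp_pos' (measurable_const.indicator hA) (B := t) (fun x => ?_)
      by_cases hx : x ∈ A
      · simp [hx, abs_of_pos ht]
      · simp [hx, ht.le]
    calc Real.log (∫ x, Real.exp (A.indicator (fun _ => t) x) ∂lam)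
        ≤ (∫ x, Real.exp (A.indicator (fun _ => t) x) ∂lam) - 1 := Real.log_le_sub_one_of_pos hpos
      _ ≤ 1 := by linarith
  rw [h3] at h1
  rw [le_div_iff₀ ht]
  linarith

/-- the Young inequality used below -/
lemma mul_le_add_exp {a b : ℝ} (ha : 0 ≤ a) : a * b ≤ (klFun a + a) + Real.exp b := by
  rcases ha.eq_or_lt with rfl | ha
  · simp only [zero_mul, klFun_zero]
    have := Real.exp_pos b
    linarith
  · unfold klFun
    have h1 : b - Real.log a + 1 ≤ Real.exp (b - Real.log a) := Real.add_one_le_exp _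
    rw [Real.exp_sub, Real.exp_log ha, le_div_iff₀ ha] at h1
    nlinarith

/-- **Local logarithmic energy of measures with bounded entropy.** -/
lemma lintegral_lgp_le {lam : Measure X} {φ : X → ℂ} {C D : ℝ} (hd : PosData lam φ C D)
    {mu nu : Measure X} [IsProbabilityMeasure mu] [IsProbabilityMeasure nu] {K : ℝ} (hK : 0 ≤ K)
    (hmu : klDiv mu lam ≤ ENNReal.ofReal K) (hnu : klDiv nu lam ≤ ENNReal.ofReal K)
    {s t : ℝ} (hs : 0 < s) (ht : 0 < t) (hst : C * s ^ 2 ≤ Real.exp (-t)) :
    ∫⁻ y, ∫⁻ x, ENNReal.ofReal (lgp s (φ x) (φ y)) ∂mu ∂nu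
      ≤ ENNReal.ofReal ((K + 1) ^ 2 / t + 5 * C * s ^ 2) := by
  have hprob := hd.prob
  have hC := hd.C_nonneg
  obtain ⟨hac, -⟩ := klDiv_ne_top_iff.1 (ne_top_of_le_ne_top ENNReal.ofReal_ne_top hmu)
  set ρ : X → ℝ≥0∞ := mu.rnDeriv lam with hρ
  have hρm : Measurable ρ := Measure.measurable_rnDeriv _ _
  have hρfin : ∀ᵐ x ∂lam, ρ x < ∞ := Measure.rnDeriv_lt_top _ _
  set f : X → ℝ≥0∞ := fun x => ENNReal.ofReal (klFun (ρ x).toReal + (ρ x).toReal) with hf
  have hfm : Measurable f := by
    refine ENNReal.measurable_ofReal.comp ?_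
    exact (measurable_klFun.comp hρm.ennreal_toReal).add hρm.ennreal_toReal
  have hfint : ∫⁻ x, f x ∂lam ≤ ENNReal.ofReal (K + 1) := by
    have h1 : ∀ x, f x ≤ ENNReal.ofReal (klFun (ρ x).toReal) + ρ x := by
      intro x
      simp only [hf]
      refine ENNReal.ofReal_add_le.trans ?_
      gcongr
      exact ENNReal.ofReal_toReal_le
    refine (lintegral_mono h1).trans ?_
    rw [lintegral_add_right _ hρm, ← klDiv_eq_lintegral_klFun_of_ac hac, ENNReal.ofReal_add hK zero_le_one]
    refine add_le_add hmu ?_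
    rw [ENNReal.ofReal_one]
    exact Measure.lintegral_rnDeriv_le.trans (by simp)
  have hlm : ∀ y, Measurable fun x => ENNReal.ofReal (lgp s (φ x) (φ y)) := fun y =>
    ENNReal.measurable_ofReal.comp ((measurable_lgp s).comp (hd.meas.prodMk measurable_const))
  have hBm : ∀ y, MeasurableSet {x | ‖φ x - φ y‖ ≤ s} := fun y =>
    measurableSet_le (hd.meas.sub measurable_const).norm measurable_const
  -- inner estimate
  have hinner : ∀ y, ∫⁻ x, ENNReal.ofReal (lgp s (φ x) (φ y)) ∂mu
      ≤ ∫⁻ x, ({x | ‖φ x - φ y‖ ≤ s}.indicator f) x ∂lam + ENNReal.ofReal (5 * C * s ^ 2) := by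
    intro y
    have h1 : ∫⁻ x, ENNReal.ofReal (lgp s (φ x) (φ y)) ∂mu
        = ∫⁻ x, ρ x * ENNReal.ofReal (lgp s (φ x) (φ y)) ∂lam := by
      have h2 := lintegral_rnDeriv_mul hac (hlm y).aemeasurable
      exact h2.symm
    rw [h1]
    have h3 : ∀ᵐ x ∂lam, ρ x * ENNReal.ofReal (lgp s (φ x) (φ y)) ≤
        ({x | ‖φ x - φ y‖ ≤ s}.indicator f) x + ({x | ‖φ x - φ y‖ ≤ s}.indicator
          fun x => ENNReal.ofReal (Real.exp (lgp s (φ x) (φ y)))) x := by
      filter_upwards [hρfin] with x hx
      by_cases hxs : ‖φ x - φ y‖ ≤ s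
      · rw [indicator_of_mem (show x ∈ {x | ‖φ x - φ y‖ ≤ s} from hxs),
          indicator_of_mem (show x ∈ {x | ‖φ x - φ y‖ ≤ s} from hxs)]
        have h4 : ρ x = ENNReal.ofReal (ρ x).toReal := (ENNReal.ofReal_toReal hx.ne).symm
        simp only [hf]
        rw [← ENNReal.ofReal_add (add_nonneg (klFun_nonneg ENNReal.toReal_nonneg)
          ENNReal.toReal_nonneg) (Real.exp_pos _).le]
        conv_lhs => rw [h4]
        rw [← ENNReal.ofReal_mul ENNReal.toReal_nonneg]
        exact ENNReal.ofReal_le_ofReal (mul_le_add_exp ENNReal.toReal_nonneg)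
      · rw [lgp_eq_zero (le_of_not_ge hxs) hs.le]
        simp
    refine (lintegral_mono_ae h3).trans ?_
    rw [lintegral_add_left (hfm.indicator (hBm y)), lintegral_indicator (hBm y) fun x =>
      ENNReal.ofReal (Real.exp (lgp s (φ x) (φ y)))]
    gcongr
    refine (lintegral_exp_lgp_le hd hs (φ y) _).trans ?_
    have h5 := hd.ball (φ y) s hs.le
    calc lam {x | ‖φ x - φ y‖ ≤ s} + ENNReal.ofReal (4 * C * s ^ 2)
        ≤ ENNReal.ofReal (C * s ^ 2) + ENNReal.ofReal (4 * C * s ^ 2) := by gcongr
      _ = ENNReal.ofReal (5 * C * s ^ 2) := by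
          rw [← ENNReal.ofReal_add (by positivity) (by positivity)]
          congr 1
          ring
  -- outer estimate
  have hsetm : MeasurableSet {p : X × X | ‖φ p.2 - φ p.1‖ ≤ s} :=
    measurableSet_le ((hd.meas.comp measurable_snd).sub (hd.meas.comp measurable_fst)).norm
      measurable_const
  calc ∫⁻ y, ∫⁻ x, ENNReal.ofReal (lgp s (φ x) (φ y)) ∂mu ∂nu
      ≤ ∫⁻ y, (∫⁻ x, ({x | ‖φ x - φ y‖ ≤ s}.indicator f) x ∂lam
          + ENNReal.ofReal (5 * C * s ^ 2)) ∂nu := lintegral_mono hinner
    _ = ∫⁻ y, ∫⁻ x, ({x | ‖φ x - φ y‖ ≤ s}.indicator f) x ∂lam ∂nu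
          + ENNReal.ofReal (5 * C * s ^ 2) := by
        rw [lintegral_add_right _ measurable_const]
        simp
    _ = ∫⁻ x, ∫⁻ y, ({x | ‖φ x - φ y‖ ≤ s}.indicator f) x ∂nu ∂lam
          + ENNReal.ofReal (5 * C * s ^ 2) := by
        congr 1
        refine lintegral_lintegral_swap ?_
        have h6 : (Function.uncurry fun y x => ({x | ‖φ x - φ y‖ ≤ s}.indicator f) x)
            = {p : X × X | ‖φ p.2 - φ p.1‖ ≤ s}.indicator (fun p => f p.2) := by
          funext p
          obtain ⟨y, x⟩ := p
          simp only [Function.uncurry, indicator, mem_ofPred_eq]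
        rw [h6]
        exact ((hfm.comp measurable_snd).indicator hsetm).aemeasurable
    _ ≤ ∫⁻ x, ENNReal.ofReal ((K + 1) / t) * f x ∂lam + ENNReal.ofReal (5 * C * s ^ 2) := by
        gcongr with x
        have h7 : ∀ y, ({x | ‖φ x - φ y‖ ≤ s}.indicator f) x
            = ({y | ‖φ x - φ y‖ ≤ s}.indicator fun _ => f x) y := by
          intro y
          simp only [indicator, mem_ofPred_eq]
        simp_rw [h7]
        have h8 : MeasurableSet {y | ‖φ x - φ y‖ ≤ s} :=
          measurableSet_le (measurable_const.sub hd.meas).norm measurable_const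
        rw [lintegral_indicator_const h8, mul_comm]
        gcongr
        have h9 : lam.real {y | ‖φ x - φ y‖ ≤ s} ≤ Real.exp (-t) := by
          have h10 := hd.ball (φ x) s hs.le
          have h11 : {y | ‖φ x - φ y‖ ≤ s} = {y | ‖φ y - φ x‖ ≤ s} := by
            ext y
            simp only [mem_ofPred_eq]
            rw [norm_sub_rev]
          rw [h11]
          have h12 := ENNReal.toReal_mono ENNReal.ofReal_ne_top h10
          rw [ENNReal.toReal_ofReal (by positivity)] at h12
          exact h12.trans hst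
        have h13 := measureReal_le_of_klDiv_le hK hnu h8 ht h9
        rw [← ENNReal.ofReal_toReal (measure_ne_top nu {y | ‖φ x - φ y‖ ≤ s})]
        exact ENNReal.ofReal_le_ofReal h13
    _ ≤ ENNReal.ofReal ((K + 1) ^ 2 / t + 5 * C * s ^ 2) := by
        rw [lintegral_const_mul _ hfm, ENNReal.ofReal_add (by positivity) (by positivity)]
        gcongr
        calc ENNReal.ofReal ((K + 1) / t) * ∫⁻ x, f x ∂lam
            ≤ ENNReal.ofReal ((K + 1) / t) * ENNReal.ofReal (K + 1) := by gcongr
          _ = ENNReal.ofReal ((K + 1) ^ 2 / t) := by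
              rw [← ENNReal.ofReal_mul (by positivity)]
              congr 1
              ring

end Pool.Agent.Lib.MP_fa244c_mp
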