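import Pool.Agent.Lib.MP_fa244c_mp.LDP.Contraction
import Pool.Agent.Lib.MP_fa244c_mp.LDP.Det

/-!
# Energies with logarithmic kernels: definitions and the deterministic approximation
-/

open MeasureTheory Filter Topology Set InformationTheory
open scoped ENNReal NNReal

namespace Pool.Agent.Lib.MP_fa244c_mp

variable {X : Type*} [MeasurableSpace X]

/-- signs of the vortices -/
def cs {M : ℕ} : Fin M ⊕ Fin M → ℝ := Sum.elim (fun _ => 1) (fun _ => -1)

lemma abs_cs {M : ℕ} (i : Fin M ⊕ Fin M) : |cs i| = 1 := by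
  rcases i with i | i <;> simp [cs]

/-- the energy divided by `N²`, `N = 2 M`: `(2 N²)⁻¹ ∑ c_i c_j G*(x_i, x_j)`, where
`G*(x, x) = h x` -/
noncomputable def Hn (G : X → X → ℝ) (h : X → ℝ) (M : ℕ) (x : Fin M ⊕ Fin M → X) : ℝ :=
  (8 * (M : ℝ) ^ 2)⁻¹ * ∑ i, ∑ j, (if i = j then h (x i) else cs i * cs j * G (x i) (x j))

/-- the quadratic functional `(1/8) ∬ g d(μ - ν) d(μ - ν)` -/
noncomputable def quad (g : X × X → ℝ) (q : ProbabilityMeasure X × ProbabilityMeasure X) : ℝ :=
  (8 : ℝ)⁻¹ * (∫ p, g p ∂((q.1 : Measure X).prod (q.1 : Measure X))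
    + ∫ p, g p ∂((q.2 : Measure X).prod (q.2 : Measure X))
    - ∫ p, g p ∂((q.1 : Measure X).prod (q.2 : Measure X))
    - ∫ p, g p ∂((q.2 : Measure X).prod (q.1 : Measure X)))

section cont

variable [TopologicalSpace X] [SecondCountableTopology X]
  [TopologicalSpace.PseudoMetrizableSpace X] [BorelSpace X] [CompactSpace X]

lemma continuous_quad (g : C(X × X, ℝ)) : Continuous (quad (X := X) g) := by
  have h1 : ∀ F : ProbabilityMeasure X × ProbabilityMeasure X →
      ProbabilityMeasure X × ProbabilityMeasure X, Continuous F →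
      Continuous fun q => ∫ p, g p ∂(((F q).1 : Measure X).prod ((F q).2 : Measure X)) := by
    intro F hF
    have h2 : Continuous fun q : ProbabilityMeasure X × ProbabilityMeasure X => q.1.prod q.2 :=
      ProbabilityMeasure.continuous_prod
    exact (ProbabilityMeasure.continuous_integral_continuousMap g).comp (h2.comp hF)
  unfold quad
  refine continuous_const.mul ?_
  exact ((((h1 (fun q => (q.1, q.1)) (by fun_prop)).add (h1 (fun q => (q.2, q.2)) (by fun_prop))).sub
    (h1 (fun q => (q.1, q.2)) (by fun_prop))).sub (h1 (fun q => (q.2, q.1)) (by fun_prop)))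

end cont

section emp

lemma integral_emp_prod {ι κ : Type*} [Fintype ι] [Nonempty ι] [Fintype κ] [Nonempty κ]
    (x : ι → X) (y : κ → X) {g : X × X → ℝ} (hg : Measurable g) {B : ℝ} (hB : ∀ p, |g p| ≤ B) :
    ∫ p, g p ∂((emp x : Measure X).prod (emp y : Measure X))
      = (Fintype.card ι : ℝ)⁻¹ * ((Fintype.card κ : ℝ)⁻¹ * ∑ i, ∑ j, g (x i, y j)) := by
  rw [integral_prod _ (integrable_of_bdd hg hB)]
  have h1 : ∀ a, ∫ b, g (a, b) ∂(emp y : Measure X) = (Fintype.card κ : ℝ)⁻¹ * ∑ j, g (a, y j) :=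
    fun a => integral_emp y (hg.comp (measurable_const.prodMk measurable_id)).stronglyMeasurable
  simp_rw [h1]
  rw [integral_emp x]
  · congr 1
    rw [Finset.mul_sum]
  · refine Measurable.stronglyMeasurable ?_
    refine Measurable.const_mul (Finset.measurable_sum _ fun j _ => ?_) _
    exact hg.comp (measurable_id.prodMk measurable_const)

lemma quad_emp2 {M : ℕ} [NeZero M] (x : Fin M ⊕ Fin M → X) {g : X × X → ℝ} (hg : Measurable g)
    {B : ℝ} (hB : ∀ p, |g p| ≤ B) :
    quad g (emp2 x) = (8 * (M : ℝ) ^ 2)⁻¹ * ∑ i, ∑ j, cs i * cs j * g (x i, x j) := by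
  unfold quad emp2
  simp only
  rw [integral_emp_prod _ _ hg hB, integral_emp_prod _ _ hg hB, integral_emp_prod _ _ hg hB,
    integral_emp_prod _ _ hg hB]
  simp only [Fintype.card_fin, Fintype.sum_sum_type, cs, Sum.elim_inl, Sum.elim_inr, mul_one,
    one_mul, mul_neg, neg_mul, Finset.sum_add_distrib, Finset.sum_neg_distrib]
  ring

end emp

/-- standing assumptions on the interaction kernel `G` off the diagonal and the self energy `h` -/
structure Kernel [TopologicalSpace X] (lam : Measure X) (φ : X → ℂ) (G : X → X → ℝ) (h : X → ℝ)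
    (C0 : ℝ) : Prop where
  inj : Function.Injective φ
  measG : Measurable (fun p : X × X => G p.1 p.2)
  nonneg : ∀ x y, 0 ≤ G x y
  upper : ∀ x y, x ≠ y → G x y ≤ C0 + Real.log (1 / ‖φ x - φ y‖)
  approx : ∀ R η : ℝ, 0 < R → 0 < η → ∃ U : Set X, MeasurableSet U ∧ lam.real U ≤ η ∧
    ∃ g : C(X × X, ℝ), (∀ p, 0 ≤ g p ∧ g p ≤ R) ∧
      ∀ x y, x ∉ U → y ∉ U → x ≠ y → g (x, y) = min (G x y) R
  meash : Measurable h
  exph : ∃ β : ℝ, 0 < β ∧ Integrable (fun x => Real.exp (β * |h x|)) lam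

section pointwise

omit [MeasurableSpace X] in
/-- pointwise comparison of `G` and its truncation -/
lemma abs_sub_le_lgp {φ : X → ℂ} (hinj : Function.Injective φ) {G : X → X → ℝ} {C0 R : ℝ}
    (hnn : ∀ x y, 0 ≤ G x y)
    (hup : ∀ x y, x ≠ y → G x y ≤ C0 + Real.log (1 / ‖φ x - φ y‖))
    (hR : 0 < R) {U : Set X} {g : X × X → ℝ} (hg : ∀ p, 0 ≤ g p ∧ g p ≤ R)
    (hgU : ∀ x y, x ∉ U → y ∉ U → x ≠ y → g (x, y) = min (G x y) R) {x y : X} (hxy : x ≠ y) :
    |G x y - g (x, y)| ≤ lgp (Real.exp (C0 - R)) (φ x) (φ y)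
      + R * (U.indicator 1 x + U.indicator 1 y) := by
  have h0 : 0 < ‖φ x - φ y‖ := norm_pos_iff.2 (sub_ne_zero.2 fun h => hxy (hinj h))
  have h1 : Real.log (Real.exp (C0 - R) / ‖φ x - φ y‖) = C0 - R + Real.log (1 / ‖φ x - φ y‖) := by
    rw [Real.log_div (Real.exp_pos _).ne' h0.ne', Real.log_exp, Real.log_div one_ne_zero h0.ne',
      Real.log_one]
    ring
  have h2 : G x y - R ≤ lgp (Real.exp (C0 - R)) (φ x) (φ y) := by
    refine le_trans ?_ (le_max_right _ _)
    rw [h1]
    linarith [hup x y hxy]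
  have h3 := lgp_nonneg (Real.exp (C0 - R)) (φ x) (φ y)
  have h4 : (0 : ℝ) ≤ U.indicator 1 x := indicator_nonneg (fun _ _ => zero_le_one) x
  have h5 : (0 : ℝ) ≤ U.indicator 1 y := indicator_nonneg (fun _ _ => zero_le_one) y
  by_cases hU : x ∉ U ∧ y ∉ U
  · rw [hgU x y hU.1 hU.2 hxy]
    have h6 : 0 ≤ R * ((U.indicator 1 x : ℝ) + U.indicator 1 y) := by positivity
    rcases le_total (G x y) R with h | h
    · rw [min_eq_left h, sub_self, abs_zero]
      linarith
    · rw [min_eq_right h, abs_of_nonneg (by linarith)]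
      linarith
  · have h6 : (1 : ℝ) ≤ U.indicator 1 x + U.indicator 1 y := by
      by_cases hx : x ∈ U
      · rw [indicator_of_mem hx]
        simp only [Pi.one_apply]
        linarith
      · have hy : y ∈ U := by
          by_contra hy
          exact hU ⟨hx, hy⟩
        rw [indicator_of_mem hy]
        simp only [Pi.one_apply]
        linarith
    have h7 : R ≤ R * ((U.indicator 1 x : ℝ) + U.indicator 1 y) := by nlinarith
    have h8 := hg (x, y)
    have h9 := hnn x y
    rw [abs_le]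
    constructor <;> linarith

end pointwise

end Pool.Agent.Lib.MP_fa244c_mp
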