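import Mathlib

/-!
# Donsker–Varadhan formula on compact metrizable spaces

`dv lam mu f = ∫ f dmu - log ∫ exp f dlam`.  For probability measures, `klDiv mu lam ≤ K` iff
`dv lam mu f ≤ K` for every continuous bounded `f`.
-/

open MeasureTheory Filter Topology Set InformationTheory
open scoped ENNReal NNReal BoundedContinuousFunction

namespace Pool.Agent.Lib.MP_fa244c_mp

variable {X : Type*} [MeasurableSpace X]

/-- the Donsker–Varadhan functional -/
noncomputable def dv (lam mu : Measure X) (f : X → ℝ) : ℝ :=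
  ∫ x, f x ∂mu - Real.log (∫ x, Real.exp (f x) ∂lam)

/-- bounded measurable functions are integrable -/
lemma integrable_of_bdd {mu : Measure X} [IsFiniteMeasure mu] {f : X → ℝ} (hf : Measurable f)
    {B : ℝ} (hB : ∀ x, |f x| ≤ B) : Integrable f mu :=
  Integrable.of_bound hf.aestronglyMeasurable B (ae_of_all _ fun x => by simpa using hB x)

lemma integrable_exp_of_bdd {mu : Measure X} [IsFiniteMeasure mu] {f : X → ℝ} (hf : Measurable f)
    {B : ℝ} (hB : ∀ x, |f x| ≤ B) : Integrable (fun x => Real.exp (f x)) mu :=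
  Integrable.of_bound (Real.measurable_exp.comp hf).aestronglyMeasurable (Real.exp B)
    (ae_of_all _ fun x => by
      rw [Real.norm_eq_abs, Real.abs_exp]
      exact Real.exp_le_exp.2 (le_trans (le_abs_self _) (hB x)))

lemma integral_exp_pos' {mu : Measure X} [IsProbabilityMeasure mu] {f : X → ℝ} (hf : Measurable f)
    {B : ℝ} (hB : ∀ x, |f x| ≤ B) : 0 < ∫ x, Real.exp (f x) ∂mu := by
  have h1 : Real.exp (-B) ≤ ∫ x, Real.exp (f x) ∂mu := by
    have h2 : ∫ _x, Real.exp (-B) ∂mu ≤ ∫ x, Real.exp (f x) ∂mu := by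
      refine integral_mono (integrable_const _) (integrable_exp_of_bdd hf hB) fun x => ?_
      exact Real.exp_le_exp.2 (neg_le_of_abs_le (hB x))
    simpa using h2
  exact lt_of_lt_of_le (Real.exp_pos _) h1

section easy

/-- easy direction of the Donsker–Varadhan formula -/
theorem dv_le_toReal_klDiv {lam mu : Measure X} [IsProbabilityMeasure lam] [IsProbabilityMeasure mu]
    (hac : mu ≪ lam) (hint : Integrable (llr mu lam) mu) {f : X → ℝ} (hf : Measurable f) {B : ℝ}
    (hB : ∀ x, |f x| ≤ B) : dv lam mu f ≤ (klDiv mu lam).toReal := by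
  have hexp : Integrable (fun x => Real.exp (f x)) lam := integrable_exp_of_bdd hf hB
  have hfi : Integrable f mu := integrable_of_bdd hf hB
  have : IsProbabilityMeasure (lam.tilted f) := isProbabilityMeasure_tilted hexp
  have h1 := integral_llr_tilted_right hac hfi hexp hint
  have hac2 : mu ≪ lam.tilted f := hac.trans (absolutelyContinuous_tilted hexp)
  have hint2 : Integrable (llr mu (lam.tilted f)) mu :=
    integrable_llr_tilted_right hac hfi hint hexp
  have h2 := integral_llr_add_sub_measure_univ_nonneg hac2 hint2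
  have h3 := toReal_klDiv_of_measure_eq hac (by simp : mu univ = lam univ)
  rw [h3]
  simp only [probReal_univ, add_sub_cancel_right] at h2
  unfold dv
  linarith [h1, h2]

end easy

section truncation

/-- truncation of `t` to `[exp (-n), exp n]` -/
noncomputable def trunc (n : ℕ) (t : ℝ) : ℝ := max (Real.exp (-(n : ℝ))) (min (Real.exp (n : ℝ)) t)

lemma trunc_pos (n : ℕ) (t : ℝ) : 0 < trunc n t :=
  lt_of_lt_of_le (Real.exp_pos _) (le_max_left _ _)

lemma trunc_le (n : ℕ) (t : ℝ) : trunc n t ≤ Real.exp (n : ℝ) := by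
  refine max_le (Real.exp_le_exp.2 ?_) (min_le_left _ _)
  have : (0 : ℝ) ≤ n := Nat.cast_nonneg n
  linarith

lemma le_trunc (n : ℕ) (t : ℝ) : Real.exp (-(n : ℝ)) ≤ trunc n t := le_max_left _ _

lemma abs_log_trunc_le (n : ℕ) (t : ℝ) : |Real.log (trunc n t)| ≤ n := by
  rw [abs_le]
  constructor
  · rw [Real.le_log_iff_exp_le (trunc_pos n t)]
    exact le_trunc n t
  · rw [Real.log_le_iff_le_exp (trunc_pos n t)]
    exact trunc_le n t

lemma measurable_trunc (n : ℕ) : Measurable (trunc n) := by
  unfold trunc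
  fun_prop

lemma trunc_of_mem {n : ℕ} {t : ℝ} (h1 : Real.exp (-(n : ℝ)) ≤ t) (h2 : t ≤ Real.exp (n : ℝ)) :
    trunc n t = t := by
  unfold trunc
  rw [min_eq_right h2, max_eq_right h1]

/-- the truncated entropy integrand -/
noncomputable def phin (n : ℕ) (t : ℝ) : ℝ := t * Real.log (trunc n t) - trunc n t + 1

lemma phin_nonneg (n : ℕ) {t : ℝ} (ht : 0 ≤ t) : 0 ≤ phin n t := by
  unfold phin
  have hn : (0 : ℝ) ≤ n := Nat.cast_nonneg n
  rcases le_total (Real.exp (n : ℝ)) t with h | h
  · have h1 : trunc n t = Real.exp (n : ℝ) := by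
      unfold trunc
      rw [min_eq_left h]
      exact max_eq_right (Real.exp_le_exp.2 (by linarith))
    rw [h1, Real.log_exp]
    have h2 := klFun_nonneg (Real.exp_pos (n : ℝ)).le
    unfold klFun at h2
    rw [Real.log_exp] at h2
    nlinarith
  · rcases le_total t (Real.exp (-(n : ℝ))) with h' | h'
    · have h1 : trunc n t = Real.exp (-(n : ℝ)) := by
        unfold trunc
        rw [min_eq_right h]
        exact max_eq_left h'
      rw [h1, Real.log_exp]
      have h2 := klFun_nonneg (Real.exp_pos (-(n : ℝ))).le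
      unfold klFun at h2
      rw [Real.log_exp] at h2
      nlinarith
    · rw [trunc_of_mem h' h]
      have h2 := klFun_nonneg ht
      unfold klFun at h2
      linarith

lemma tendsto_phin {t : ℝ} (ht : 0 ≤ t) : Tendsto (fun n : ℕ => phin n t) atTop (𝓝 (klFun t)) := by
  have hexp : Tendsto (fun n : ℕ => Real.exp (n : ℝ)) atTop atTop :=
    Real.tendsto_exp_atTop.comp tendsto_natCast_atTop_atTop
  have hexp2 : Tendsto (fun n : ℕ => Real.exp (-(n : ℝ))) atTop (𝓝 0) :=
    (Real.tendsto_exp_neg_atTop_nhds_zero).comp tendsto_natCast_atTop_atTop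
  rcases ht.eq_or_lt with rfl | ht
  · have h1 : ∀ n : ℕ, phin n 0 = 1 - Real.exp (-(n : ℝ)) := by
      intro n
      unfold phin trunc
      rw [min_eq_right (Real.exp_pos _).le, max_eq_left (Real.exp_pos _).le]
      ring
    simp_rw [h1, klFun_zero]
    simpa using (tendsto_const_nhds (x := (1 : ℝ))).sub hexp2
  · have h1 : ∀ᶠ n : ℕ in atTop, phin n t = klFun t := by
      filter_upwards [hexp.eventually_ge_atTop t, hexp2.eventually_le_const ht] with n h1 h2
      unfold phin
      rw [trunc_of_mem h2 h1]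
      unfold klFun
      ring
    exact tendsto_const_nhds.congr' (h1.mono fun n hn => hn.symm)

end truncation

/-- hard direction, from bounded measurable test functions -/
theorem klDiv_le_of_forall_measurable {lam mu : Measure X} [IsProbabilityMeasure lam]
    [IsProbabilityMeasure mu] {K : ℝ}
    (h : ∀ f : X → ℝ, Measurable f → ∀ B : ℝ, (∀ x, |f x| ≤ B) → dv lam mu f ≤ K) :
    klDiv mu lam ≤ ENNReal.ofReal K := by
  classical
  -- absolute continuity
  have hac : mu ≪ lam := by
    refine Measure.AbsolutelyContinuous.mk fun A hA hA0 => ?_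
    have h1 : ∀ n : ℕ, (n : ℝ) * mu.real A ≤ K := by
      intro n
      have h2 := h (A.indicator fun _ => (n : ℝ)) (measurable_const.indicator hA) n (fun x => by
        by_cases hx : x ∈ A
        · simp [hx]
        · simp [hx])
      unfold dv at h2
      have h3 : ∫ x, A.indicator (fun _ => (n : ℝ)) x ∂mu = n * mu.real A := by
        rw [integral_indicator hA, setIntegral_const, smul_eq_mul, mul_comm]
      have h4 : ∫ x, Real.exp (A.indicator (fun _ => (n : ℝ)) x) ∂lam = 1 := by
        have h5 : (fun x => Real.exp (A.indicator (fun _ => (n : ℝ)) x)) =ᵐ[lam] fun _ => (1 : ℝ) := by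
          have h6 : ∀ᵐ x ∂lam, x ∉ A := measure_eq_zero_iff_ae_notMem.1 hA0
          filter_upwards [h6] with x hx
          simp [hx]
        rw [integral_congr_ae h5]
        simp
      rw [h3, h4, Real.log_one, sub_zero] at h2
      exact h2
    have h2 : mu.real A = 0 := by
      by_contra hne
      have hpos : 0 < mu.real A := lt_of_le_of_ne measureReal_nonneg (Ne.symm hne)
      obtain ⟨n, hn⟩ := exists_nat_gt (K / mu.real A)
      have := h1 n
      rw [div_lt_iff₀ hpos] at hn
      linarith
    exact (measureReal_eq_zero_iff).1 h2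
  rw [klDiv_eq_lintegral_klFun_of_ac hac]
  set r : X → ℝ := fun x => (mu.rnDeriv lam x).toReal with hr
  have hrm : Measurable r := (Measure.measurable_rnDeriv mu lam).ennreal_toReal
  have hr0 : ∀ x, 0 ≤ r x := fun x => ENNReal.toReal_nonneg
  have hri : Integrable r lam := Measure.integrable_toReal_rnDeriv
  -- the truncated functions
  have key : ∀ n : ℕ, ∫⁻ x, ENNReal.ofReal (phin n (r x)) ∂lam ≤ ENNReal.ofReal K := by
    intro n
    have hfm : Measurable fun x => Real.log (trunc n (r x)) :=
      Real.measurable_log.comp ((measurable_trunc n).comp hrm)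
    have hfb : ∀ x, |Real.log (trunc n (r x))| ≤ n := fun x => abs_log_trunc_le n _
    have h1 := h _ hfm n hfb
    unfold dv at h1
    have h2 : ∫ x, Real.exp (Real.log (trunc n (r x))) ∂lam = ∫ x, trunc n (r x) ∂lam := by
      refine integral_congr_ae (ae_of_all _ fun x => ?_)
      exact Real.exp_log (trunc_pos n _)
    have htb : ∀ x, |trunc n (r x)| ≤ Real.exp (n : ℝ) := fun x => by
      rw [abs_of_pos (trunc_pos n _)]
      exact trunc_le n _
    have hti : Integrable (fun x => trunc n (r x)) lam :=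
      integrable_of_bdd ((measurable_trunc n).comp hrm) htb
    have h3 : 0 < ∫ x, trunc n (r x) ∂lam := by
      have := integral_exp_pos' (mu := lam) hfm hfb
      rwa [h2] at this
    have h4 : Real.log (∫ x, trunc n (r x) ∂lam) ≤ (∫ x, trunc n (r x) ∂lam) - 1 :=
      Real.log_le_sub_one_of_pos h3
    have h5 : ∫ x, Real.log (trunc n (r x)) ∂mu = ∫ x, r x * Real.log (trunc n (r x)) ∂lam := by
      rw [← integral_rnDeriv_smul hac]
      rfl
    have hi6 : Integrable (fun x => r x * Real.log (trunc n (r x))) lam := by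
      refine (hri.const_mul (n : ℝ)).mono' (hrm.mul hfm).aestronglyMeasurable (ae_of_all _ fun x => ?_)
      rw [Real.norm_eq_abs, abs_mul, abs_of_nonneg (hr0 x), mul_comm]
      exact mul_le_mul_of_nonneg_right (hfb x) (hr0 x)
    have hi7 : Integrable (fun x => phin n (r x)) lam := by
      unfold phin
      exact (hi6.sub hti).add (integrable_const _)
    rw [← ofReal_integral_eq_lintegral_ofReal hi7 (ae_of_all _ fun x => phin_nonneg n (hr0 x))]
    refine ENNReal.ofReal_le_ofReal ?_
    have h8 : ∫ x, phin n (r x) ∂lam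
        = ∫ x, r x * Real.log (trunc n (r x)) ∂lam - ∫ x, trunc n (r x) ∂lam + 1 := by
      unfold phin
      have hi9 : Integrable (fun x => r x * Real.log (trunc n (r x)) - trunc n (r x)) lam :=
        hi6.sub hti
      rw [integral_add hi9 (integrable_const _), integral_sub hi6 hti]
      simp
    rw [h8]
    rw [h2] at h1
    linarith
  -- Fatou
  have hfatou : ∫⁻ x, liminf (fun n : ℕ => ENNReal.ofReal (phin n (r x))) atTop ∂lam
      ≤ liminf (fun n : ℕ => ∫⁻ x, ENNReal.ofReal (phin n (r x)) ∂lam) atTop := by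
    refine lintegral_liminf_le fun n => ?_
    refine ENNReal.measurable_ofReal.comp ?_
    unfold phin
    exact ((hrm.mul (Real.measurable_log.comp ((measurable_trunc n).comp hrm))).sub
      ((measurable_trunc n).comp hrm)).add_const _
  have heq : ∀ x, liminf (fun n : ℕ => ENNReal.ofReal (phin n (r x))) atTop
      = ENNReal.ofReal (klFun (r x)) := by
    intro x
    refine Tendsto.liminf_eq ?_
    exact (ENNReal.continuous_ofReal.tendsto _).comp (tendsto_phin (hr0 x))
  simp_rw [heq] at hfatou
  refine hfatou.trans ?_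
  refine (liminf_le_liminf (ae_of_all_le key)).trans ?_
  simp
where
  ae_of_all_le {a : ℕ → ℝ≥0∞} {b : ℝ≥0∞} (h : ∀ n, a n ≤ b) : ∀ᶠ n in atTop, a n ≤ (fun _ : ℕ => b) n :=
    Eventually.of_forall h

section continuous

variable [TopologicalSpace X] [NormalSpace X] [BorelSpace X]

/-- clipping a function to `[-B, B]` -/
noncomputable def clip (B : ℝ) (t : ℝ) : ℝ := max (-B) (min B t)

lemma continuous_clip (B : ℝ) : Continuous (clip B) := by
  unfold clip
  fun_prop

lemma abs_clip_le {B : ℝ} (hB : 0 ≤ B) (t : ℝ) : |clip B t| ≤ B := by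
  unfold clip
  rw [abs_le]
  exact ⟨le_max_left _ _, max_le (by linarith) (min_le_left _ _)⟩

lemma clip_of_abs_le {B t : ℝ} (h : |t| ≤ B) : clip B t = t := by
  unfold clip
  rw [abs_le] at h
  rw [min_eq_right h.2, max_eq_right h.1]

lemma abs_clip_sub_clip_le (B s t : ℝ) : |clip B s - clip B t| ≤ |s - t| := by
  unfold clip
  have h1 := abs_max_sub_max_le_max (-B) (min B s) (-B) (min B t)
  have h2 := abs_min_sub_min_le_max B s B t
  simp only [sub_self, abs_zero] at h1 h2
  rw [max_eq_right (abs_nonneg (min B s - min B t))] at h1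
  rw [max_eq_right (abs_nonneg (s - t))] at h2
  exact h1.trans h2

lemma abs_exp_sub_exp_le {B s t : ℝ} (hs : |s| ≤ B) (ht : |t| ≤ B) :
    |Real.exp s - Real.exp t| ≤ Real.exp B * |s - t| := by
  wlog hst : t ≤ s generalizing s t
  · rw [abs_sub_comm, abs_sub_comm s t]
    exact this ht hs (le_of_not_ge hst)
  rw [abs_of_nonneg (sub_nonneg.2 (Real.exp_le_exp.2 hst)), abs_of_nonneg (sub_nonneg.2 hst)]
  have h1 : Real.exp t = Real.exp s * Real.exp (t - s) := by rw [← Real.exp_add]; ring_nf
  have h2 : 1 + (t - s) ≤ Real.exp (t - s) := by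
    have := Real.add_one_le_exp (t - s); linarith
  have h3 : Real.exp s ≤ Real.exp B := Real.exp_le_exp.2 (le_trans (le_abs_self _) hs)
  have h4 := Real.exp_pos s
  have h5 : 0 ≤ s - t := sub_nonneg.2 hst
  calc Real.exp s - Real.exp t = Real.exp s * (1 - Real.exp (t - s)) := by rw [h1]; ring
    _ ≤ Real.exp s * (s - t) := mul_le_mul_of_nonneg_left (by linarith) h4.le
    _ ≤ Real.exp B * (s - t) := mul_le_mul_of_nonneg_right h3 h5

/-- it is enough to test with bounded continuous functions -/
theorem klDiv_le_of_forall_continuous {lam mu : Measure X} [IsProbabilityMeasure lam]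
    [IsProbabilityMeasure mu] [(lam + mu).WeaklyRegular] {K : ℝ}
    (h : ∀ f : X →ᵇ ℝ, dv lam mu f ≤ K) :
    klDiv mu lam ≤ ENNReal.ofReal K := by
  refine klDiv_le_of_forall_measurable fun f hf B hB => ?_
  have hB0 : 0 ≤ B := by
    have : Nonempty X := by
      by_contra hne
      rw [not_nonempty_iff] at hne
      have h1 : (mu : Measure X) univ = 1 := measure_univ
      rw [eq_empty_of_isEmpty (univ : Set X), measure_empty] at h1
      exact zero_ne_one h1
    exact (abs_nonneg _).trans (hB this.some)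
  have hfi : Integrable f (lam + mu) := integrable_of_bdd hf hB
  -- approximating sequence
  have hex : ∀ n : ℕ, ∃ g : X →ᵇ ℝ, ∫ x, |f x - clip B (g x)| ∂(lam + mu) ≤ 1 / ((n : ℝ) + 1) := by
    intro n
    obtain ⟨g, hg, hgi⟩ := hfi.exists_boundedContinuous_integral_sub_le
      (show (0 : ℝ) < 1 / ((n : ℝ) + 1) by positivity)
    refine ⟨g, le_trans ?_ hg⟩
    refine integral_mono_of_nonneg (ae_of_all _ fun x => abs_nonneg _) (hfi.sub hgi).norm
      (ae_of_all _ fun x => ?_)
    have h1 : clip B (f x) = f x := clip_of_abs_le (hB x)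
    calc |f x - clip B (g x)| = |clip B (f x) - clip B (g x)| := by rw [h1]
      _ ≤ |f x - g x| := abs_clip_sub_clip_le _ _ _
      _ = ‖f x - g x‖ := (Real.norm_eq_abs _).symm
  choose g hg using hex
  let G : ℕ → X →ᵇ ℝ := fun n => BoundedContinuousFunction.ofNormedAddCommGroup
    (fun x => clip B (g n x)) ((continuous_clip B).comp (g n).continuous) B
    (fun x => by rw [Real.norm_eq_abs]; exact abs_clip_le hB0 _)
  have hGdef : ∀ n x, G n x = clip B (g n x) := fun n x => rfl
  have hGb : ∀ n x, |G n x| ≤ B := fun n x => abs_clip_le hB0 _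
  have hGm : ∀ n, Measurable (G n) := fun n => (G n).continuous.measurable
  have hg' : ∀ n, ∫ x, |f x - G n x| ∂(lam + mu) ≤ 1 / ((n : ℝ) + 1) := hg
  have hsmall : Tendsto (fun n : ℕ => 1 / ((n : ℝ) + 1)) atTop (𝓝 0) :=
    tendsto_one_div_add_atTop_nhds_zero_nat
  have hsub : ∀ n, Integrable (fun x => |f x - G n x|) (lam + mu) := fun n =>
    ((integrable_of_bdd hf hB).sub (integrable_of_bdd (hGm n) (hGb n))).abs
  have hl : ∀ n, ∫ x, |f x - G n x| ∂lam ≤ 1 / ((n : ℝ) + 1) := by
    intro n
    refine le_trans ?_ (hg' n)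
    have h1 := (hsub n)
    rw [integral_add_measure (h1.mono_measure (Measure.le_add_right le_rfl))
      (h1.mono_measure (Measure.le_add_left le_rfl))]
    have : 0 ≤ ∫ x, |f x - G n x| ∂mu := integral_nonneg fun x => abs_nonneg _
    linarith
  have hm : ∀ n, ∫ x, |f x - G n x| ∂mu ≤ 1 / ((n : ℝ) + 1) := by
    intro n
    refine le_trans ?_ (hg' n)
    have h1 := (hsub n)
    rw [integral_add_measure (h1.mono_measure (Measure.le_add_right le_rfl))
      (h1.mono_measure (Measure.le_add_left le_rfl))]
    have : 0 ≤ ∫ x, |f x - G n x| ∂lam := integral_nonneg fun x => abs_nonneg _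
    linarith
  have t1 : Tendsto (fun n => ∫ x, G n x ∂mu) atTop (𝓝 (∫ x, f x ∂mu)) := by
    rw [tendsto_iff_norm_sub_tendsto_zero]
    refine squeeze_zero (fun n => norm_nonneg _) (fun n => ?_) hsmall
    rw [← integral_sub (integrable_of_bdd (hGm n) (hGb n)) (integrable_of_bdd hf hB)]
    refine (norm_integral_le_integral_norm _).trans ?_
    refine le_trans (le_of_eq ?_) (hm n)
    refine integral_congr_ae (ae_of_all _ fun x => ?_)
    simp only [Real.norm_eq_abs]
    exact abs_sub_comm _ _
  have t2 : Tendsto (fun n => ∫ x, Real.exp (G n x) ∂lam) atTop (𝓝 (∫ x, Real.exp (f x) ∂lam)) := by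
    rw [tendsto_iff_norm_sub_tendsto_zero]
    have hsmall2 : Tendsto (fun n : ℕ => Real.exp B * (1 / ((n : ℝ) + 1))) atTop (𝓝 0) := by
      simpa using hsmall.const_mul (Real.exp B)
    refine squeeze_zero (fun n => norm_nonneg _) (fun n => ?_) hsmall2
    rw [← integral_sub (integrable_exp_of_bdd (hGm n) (hGb n)) (integrable_exp_of_bdd hf hB)]
    refine (norm_integral_le_integral_norm _).trans ?_
    calc ∫ x, ‖Real.exp (G n x) - Real.exp (f x)‖ ∂lam
        ≤ ∫ x, Real.exp B * |f x - G n x| ∂lam := by
          refine integral_mono_of_nonneg (ae_of_all _ fun x => norm_nonneg _)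
            (((hsub n).mono_measure (Measure.le_add_right le_rfl)).const_mul _)
            (ae_of_all _ fun x => ?_)
          simp only [Real.norm_eq_abs]
          rw [abs_sub_comm (f x)]
          exact abs_exp_sub_exp_le (hGb n x) (hB x)
      _ = Real.exp B * ∫ x, |f x - G n x| ∂lam := integral_const_mul _ _
      _ ≤ _ := mul_le_mul_of_nonneg_left (hl n) (Real.exp_pos _).le
  have t3 : Tendsto (fun n => dv lam mu (G n)) atTop (𝓝 (dv lam mu f)) := by
    unfold dv
    refine t1.sub ?_
    refine (Real.continuousAt_log (integral_exp_pos' hf hB).ne').tendsto.comp t2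
  exact le_of_tendsto' t3 fun n => h (G n)

/-- **Donsker–Varadhan**: `klDiv mu lam ≤ K` iff `dv lam mu f ≤ K` for all bounded continuous
`f`. -/
theorem klDiv_le_iff {lam mu : Measure X} [IsProbabilityMeasure lam]
    [IsProbabilityMeasure mu] [(lam + mu).WeaklyRegular] {K : ℝ} (hK : 0 ≤ K) :
    klDiv mu lam ≤ ENNReal.ofReal K ↔ ∀ f : X →ᵇ ℝ, dv lam mu f ≤ K := by
  refine ⟨fun h f => ?_, klDiv_le_of_forall_continuous⟩
  have hne : klDiv mu lam ≠ ∞ := ne_top_of_le_ne_top ENNReal.ofReal_ne_top h
  obtain ⟨hac, hint⟩ := klDiv_ne_top_iff.1 hne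
  refine (dv_le_toReal_klDiv hac hint f.continuous.measurable (B := ‖f‖) fun x => ?_).trans ?_
  · exact f.norm_coe_le_norm x
  · exact ENNReal.toReal_le_of_le_ofReal hK h

/-- existence of a continuous test function witnessing large entropy -/
theorem exists_dv_gt {lam mu : Measure X} [IsProbabilityMeasure lam]
    [IsProbabilityMeasure mu] [(lam + mu).WeaklyRegular] {K : ℝ}
    (h : ENNReal.ofReal K < klDiv mu lam) : ∃ f : X →ᵇ ℝ, K < dv lam mu f := by
  by_contra hcon
  push Not at hcon
  exact absurd (klDiv_le_of_forall_continuous hcon) (not_le.2 h)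

end continuous

section lsc

variable [TopologicalSpace X] [TopologicalSpace.PseudoMetrizableSpace X] [BorelSpace X]

omit [TopologicalSpace.PseudoMetrizableSpace X] in
lemma continuous_dv (lam : ProbabilityMeasure X) (f : X →ᵇ ℝ) :
    Continuous fun mu : ProbabilityMeasure X => dv (lam : Measure X) (mu : Measure X) f := by
  unfold dv
  exact (ProbabilityMeasure.continuous_integral_boundedContinuousFunction f).sub continuous_const

/-- relative entropy is lower semicontinuous for weak convergence -/
theorem lowerSemicontinuous_klDiv (lam : ProbabilityMeasure X) :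
    LowerSemicontinuous fun mu : ProbabilityMeasure X =>
      klDiv (mu : Measure X) (lam : Measure X) := by
  rw [lowerSemicontinuous_iff_isClosed_preimage]
  intro K
  rcases eq_or_ne K ∞ with rfl | hK
  · simp
  obtain ⟨K, rfl⟩ : ∃ K' : ℝ≥0, (K' : ℝ≥0∞) = K := ⟨K.toNNReal, ENNReal.coe_toNNReal hK⟩
  have h1 : (fun mu : ProbabilityMeasure X => klDiv (mu : Measure X) (lam : Measure X)) ⁻¹'
      Iic (K : ℝ≥0∞) = ⋂ f : X →ᵇ ℝ, {mu : ProbabilityMeasure X |
        dv (lam : Measure X) (mu : Measure X) f ≤ K} := by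
    ext mu
    simp only [mem_preimage, mem_Iic, mem_iInter, mem_ofPred_eq]
    have h2 := klDiv_le_iff (lam := (lam : Measure X)) (mu := (mu : Measure X)) (K := (K : ℝ)) K.2
    rw [ENNReal.ofReal_coe_nnreal] at h2
    exact h2
  rw [h1]
  exact isClosed_iInter fun f => isClosed_le (continuous_dv lam f) continuous_const

end lsc

end Pool.Agent.Lib.MP_fa244c_mp
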