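import Pool.Agent.Lib.MP_fa244c_mp.LDP.Entropy

/-!
# Two-species Sanov upper bound on compact metrizable spaces
-/

open MeasureTheory Filter Topology Set InformationTheory
open scoped ENNReal NNReal BoundedContinuousFunction

namespace Pool.Agent.Lib.MP_fa244c_mp

variable {X : Type*} [MeasurableSpace X]

section emp

variable {ι : Type*} [Fintype ι] [Nonempty ι]

/-- empirical measure of a finite family of points -/
noncomputable def emp (x : ι → X) : ProbabilityMeasure X :=
  ⟨(Fintype.card ι : ℝ≥0∞)⁻¹ • ∑ i, Measure.dirac (x i), by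
    constructor
    rw [Measure.smul_apply, Measure.finsetSum_apply]
    simp only [measure_univ, Finset.sum_const, Finset.card_univ, nsmul_eq_mul, mul_one, smul_eq_mul]
    exact ENNReal.inv_mul_cancel (by simp) (by simp)⟩

lemma emp_toMeasure (x : ι → X) :
    (emp x : Measure X) = (Fintype.card ι : ℝ≥0∞)⁻¹ • ∑ i, Measure.dirac (x i) := rfl

lemma integral_emp (x : ι → X) {f : X → ℝ} (hf : StronglyMeasurable f) :
    ∫ y, f y ∂(emp x : Measure X) = (Fintype.card ι : ℝ)⁻¹ * ∑ i, f (x i) := by
  rw [emp_toMeasure, integral_smul_measure, integral_finsetSum_measure]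
  · simp only [ENNReal.toReal_inv, ENNReal.toReal_natCast, smul_eq_mul]
    congr 1
    refine Finset.sum_congr rfl fun i _ => ?_
    rw [integral_dirac' _ _ hf]
  · intro i _
    exact integrable_dirac' hf (by simp)

variable [TopologicalSpace X] [OpensMeasurableSpace X]

lemma continuous_emp : Continuous fun x : ι → X => emp x := by
  rw [ProbabilityMeasure.continuous_iff_forall_continuous_integral]
  intro f
  have h : ∀ x : ι → X, ∫ y, f y ∂(emp x : Measure X)
      = (Fintype.card ι : ℝ)⁻¹ * ∑ i, f (x i) := fun x =>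
    integral_emp x f.continuous.measurable.stronglyMeasurable
  simp_rw [h]
  fun_prop

end emp

section two

variable {ι κ : Type*} [Fintype ι] [Nonempty ι] [Fintype κ] [Nonempty κ]

/-- the two empirical measures of a two-species configuration -/
noncomputable def emp2 (x : ι ⊕ κ → X) : ProbabilityMeasure X × ProbabilityMeasure X :=
  (emp fun i => x (Sum.inl i), emp fun i => x (Sum.inr i))

lemma continuous_emp2 [TopologicalSpace X] [OpensMeasurableSpace X] :
    Continuous fun x : ι ⊕ κ → X => emp2 x := by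
  refine Continuous.prodMk (continuous_emp.comp ?_) (continuous_emp.comp ?_) <;> fun_prop

end two

/-- the sum of the two relative entropies -/
noncomputable def kl2 (lam : ProbabilityMeasure X)
    (q : ProbabilityMeasure X × ProbabilityMeasure X) : ℝ≥0∞ :=
  klDiv (q.1 : Measure X) (lam : Measure X) + klDiv (q.2 : Measure X) (lam : Measure X)

section topo

variable [TopologicalSpace X] [TopologicalSpace.PseudoMetrizableSpace X] [BorelSpace X]

lemma lowerSemicontinuous_kl2 (lam : ProbabilityMeasure X) : LowerSemicontinuous (kl2 lam) := by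
  unfold kl2
  exact ((lowerSemicontinuous_klDiv lam).comp continuous_fst).add
    ((lowerSemicontinuous_klDiv lam).comp continuous_snd)

lemma isClosed_kl2_le (lam : ProbabilityMeasure X) (K : ℝ≥0∞) :
    IsClosed {q | kl2 lam q ≤ K} :=
  (lowerSemicontinuous_kl2 lam).isClosed_preimage K

/-- continuous test functions witnessing large total entropy -/
lemma exists_dv_add_dv_gt (lam : ProbabilityMeasure X) {K : ℝ}
    {q : ProbabilityMeasure X × ProbabilityMeasure X}
    (h : ENNReal.ofReal K < kl2 lam q) :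
    ∃ p : (X →ᵇ ℝ) × (X →ᵇ ℝ), K < dv (lam : Measure X) q.1 p.1 + dv (lam : Measure X) q.2 p.2 := by
  have key : ∀ mu : ProbabilityMeasure X, ∀ α : ℝ,
      (klDiv (mu : Measure X) (lam : Measure X) ≠ ∞ →
        α < (klDiv (mu : Measure X) (lam : Measure X)).toReal) →
      ∃ f : X →ᵇ ℝ, α < dv (lam : Measure X) mu f := by
    intro mu α hα
    rcases lt_or_ge α 0 with h0 | h0
    · refine ⟨0, ?_⟩
      simpa [dv] using h0
    · apply exists_dv_gt
      by_cases ht : klDiv (mu : Measure X) (lam : Measure X) = ∞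
      · rw [ht]; exact ENNReal.ofReal_lt_top
      · rw [ENNReal.ofReal_lt_iff_lt_toReal h0 ht]
        exact hα ht
  set a := klDiv (q.1 : Measure X) (lam : Measure X) with ha
  set b := klDiv (q.2 : Measure X) (lam : Measure X) with hb
  have hab : ENNReal.ofReal K < a + b := h
  by_cases hat : a = ∞
  · obtain ⟨f, hf⟩ := key q.1 (K + 2) (fun h => absurd hat h)
    obtain ⟨g, hg⟩ := key q.2 (-1) (fun _ => lt_of_lt_of_le (by norm_num) ENNReal.toReal_nonneg)
    exact ⟨(f, g), by simp only; linarith⟩
  by_cases hbt : b = ∞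
  · obtain ⟨f, hf⟩ := key q.1 (-1) (fun _ => lt_of_lt_of_le (by norm_num) ENNReal.toReal_nonneg)
    obtain ⟨g, hg⟩ := key q.2 (K + 2) (fun h => absurd hbt h)
    exact ⟨(f, g), by simp only; linarith⟩
  have h1 : K < a.toReal + b.toReal := by
    rw [← ENNReal.toReal_add hat hbt]
    by_contra hcon
    push Not at hcon
    have := ENNReal.ofReal_le_ofReal hcon
    rw [ENNReal.ofReal_toReal (ENNReal.add_ne_top.2 ⟨hat, hbt⟩)] at this
    exact absurd this (not_le.2 hab)
  set δ := (a.toReal + b.toReal - K) / 3 with hδ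
  have hδ0 : 0 < δ := by rw [hδ]; linarith
  obtain ⟨f, hf⟩ := key q.1 (a.toReal - δ) (fun _ => by linarith)
  obtain ⟨g, hg⟩ := key q.2 (b.toReal - δ) (fun _ => by linarith)
  refine ⟨(f, g), ?_⟩
  simp only
  have : 3 * δ = a.toReal + b.toReal - K := by rw [hδ]; ring
  linarith

omit [TopologicalSpace.PseudoMetrizableSpace X] in
/-- exponential Chebyshev for the two-species empirical measures -/
lemma measure_dv_gt_le (lam : ProbabilityMeasure X) (p : (X →ᵇ ℝ) × (X →ᵇ ℝ)) (K : ℝ)
    {ι κ : Type*} [Fintype ι] [Nonempty ι] [Fintype κ] [Nonempty κ]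
    (hcard : Fintype.card κ = Fintype.card ι) :
    (Measure.pi fun _ : ι ⊕ κ => (lam : Measure X)).real
      {x | K < dv (lam : Measure X) (emp2 x).1 p.1 + dv (lam : Measure X) (emp2 x).2 p.2}
      ≤ Real.exp (-(K * Fintype.card ι)) := by
  obtain ⟨f, g⟩ := p
  set M : ℝ := (Fintype.card ι : ℝ) with hM
  have hMpos : 0 < M := by rw [hM]; exact_mod_cast Fintype.card_pos
  have hMκ : (Fintype.card κ : ℝ) = M := by rw [hM, hcard]
  set a : ℝ := ∫ x, Real.exp (f x) ∂(lam : Measure X) with ha
  set b : ℝ := ∫ x, Real.exp (g x) ∂(lam : Measure X) with hb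
  have hfb : ∀ x, |f x| ≤ ‖f‖ := fun x => f.norm_coe_le_norm x
  have hgb : ∀ x, |g x| ≤ ‖g‖ := fun x => g.norm_coe_le_norm x
  have ha0 : 0 < a := integral_exp_pos' f.continuous.measurable hfb
  have hb0 : 0 < b := integral_exp_pos' g.continuous.measurable hgb
  -- the exponential moment
  let F : ι ⊕ κ → X → ℝ := Sum.elim (fun _ x => Real.exp (f x) / a) (fun _ x => Real.exp (g x) / b)
  let Z : (ι ⊕ κ → X) → ℝ := fun x => ∏ i, F i (x i)
  have hZint : ∫ x, Z x ∂(Measure.pi fun _ : ι ⊕ κ => (lam : Measure X)) = 1 := by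
    have h1 := integral_fintype_prod_eq_prod (μ := fun _ : ι ⊕ κ => (lam : Measure X)) F
    rw [h1]
    refine Finset.prod_eq_one fun i _ => ?_
    rcases i with i | i
    · simp only [F, Sum.elim_inl]
      rw [integral_div, ← ha, div_self ha0.ne']
    · simp only [F, Sum.elim_inr]
      rw [integral_div, ← hb, div_self hb0.ne']
  have hF0 : ∀ i x, 0 ≤ F i x := by
    intro i x
    rcases i with i | i
    · exact div_nonneg (Real.exp_pos _).le ha0.le
    · exact div_nonneg (Real.exp_pos _).le hb0.le
  have hZ0 : ∀ x, 0 ≤ Z x := fun x => Finset.prod_nonneg fun i _ => hF0 i _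
  have hZi : Integrable Z (Measure.pi fun _ : ι ⊕ κ => (lam : Measure X)) := by
    apply Integrable.fintype_prod
    intro i
    rcases i with i | i
    · exact (integrable_exp_of_bdd f.continuous.measurable hfb).div_const _
    · exact (integrable_exp_of_bdd g.continuous.measurable hgb).div_const _
  have hsub : {x : ι ⊕ κ → X | K < dv (lam : Measure X) (emp2 x).1 f
      + dv (lam : Measure X) (emp2 x).2 g} ⊆ {x | Real.exp (K * M) ≤ Z x} := by
    intro x hx
    simp only [mem_ofPred_eq, dv, emp2] at hx ⊢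
    rw [integral_emp _ f.continuous.measurable.stronglyMeasurable,
      integral_emp _ g.continuous.measurable.stronglyMeasurable, ← ha, ← hb, hMκ, ← hM] at hx
    have hZx : Z x = Real.exp (∑ i : ι, f (x (Sum.inl i)) + ∑ i : κ, g (x (Sum.inr i))
        - M * Real.log a - M * Real.log b) := by
      simp only [Z, F, Fintype.prod_sum_type, Sum.elim_inl, Sum.elim_inr]
      rw [Finset.prod_div_distrib, Finset.prod_div_distrib, ← Real.exp_sum, ← Real.exp_sum,
        Real.exp_sub, Real.exp_sub, Real.exp_add]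
      simp only [Finset.prod_const, Finset.card_univ]
      have e1 : Real.exp (M * Real.log a) = a ^ Fintype.card ι := by
        rw [hM, ← Real.log_pow, Real.exp_log (pow_pos ha0 _)]
      have e2 : Real.exp (M * Real.log b) = b ^ Fintype.card κ := by
        rw [← hMκ, ← Real.log_pow, Real.exp_log (pow_pos hb0 _)]
      rw [e1, e2]
      field_simp
    rw [hZx]
    refine Real.exp_le_exp.2 ?_
    have h3 := mul_lt_mul_of_pos_right hx hMpos
    have h4 : (M⁻¹ * ∑ i : ι, f (x (Sum.inl i)) - Real.log a +
        (M⁻¹ * ∑ i : κ, g (x (Sum.inr i)) - Real.log b)) * M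
        = ∑ i : ι, f (x (Sum.inl i)) + ∑ i : κ, g (x (Sum.inr i))
        - M * Real.log a - M * Real.log b := by
      field_simp
      ring
    rw [h4] at h3
    exact h3.le
  have hmarkov := mul_meas_ge_le_integral_of_nonneg (ae_of_all _ hZ0) hZi (Real.exp (K * M))
  rw [hZint] at hmarkov
  have h5 : (Measure.pi fun _ : ι ⊕ κ => (lam : Measure X)).real {x | Real.exp (K * M) ≤ Z x}
      ≤ Real.exp (-(K * M)) := by
    rw [Real.exp_neg, ← one_div, le_div_iff₀ (Real.exp_pos _), mul_comm]
    exact hmarkov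
  exact (measureReal_mono hsub).trans h5

/-- **Sanov upper bound** (two species, closed sets, nonasymptotic form) -/
theorem sanov_upper [CompactSpace X] [T2Space X] (lam : ProbabilityMeasure X)
    {C : Set (ProbabilityMeasure X × ProbabilityMeasure X)} (hC : IsClosed C) {K : ℝ}
    (h : ∀ q ∈ C, ENNReal.ofReal K < kl2 lam q) :
    ∃ A : ℝ, 0 ≤ A ∧ ∀ (ι κ : Type) [Fintype ι] [Nonempty ι] [Fintype κ] [Nonempty κ],
      Fintype.card κ = Fintype.card ι →
      (Measure.pi fun _ : ι ⊕ κ => (lam : Measure X)).real {x | emp2 x ∈ C}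
        ≤ A * Real.exp (-(K * Fintype.card ι)) := by
  classical
  have hCc : IsCompact C := hC.isCompact
  let U : (X →ᵇ ℝ) × (X →ᵇ ℝ) → Set (ProbabilityMeasure X × ProbabilityMeasure X) := fun p =>
    {q | K < dv (lam : Measure X) q.1 p.1 + dv (lam : Measure X) q.2 p.2}
  have hUo : ∀ p, IsOpen (U p) := fun p =>
    isOpen_lt continuous_const
      (((continuous_dv lam p.1).comp continuous_fst).add ((continuous_dv lam p.2).comp continuous_snd))
  obtain ⟨t, ht⟩ := hCc.elim_finite_subcover U hUo (fun q hq => by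
    obtain ⟨p, hp⟩ := exists_dv_add_dv_gt lam (h q hq)
    exact mem_iUnion.2 ⟨p, hp⟩)
  refine ⟨t.card, Nat.cast_nonneg _, ?_⟩
  intro ι κ _ _ _ _ hcard
  have h1 : {x : ι ⊕ κ → X | emp2 x ∈ C} ⊆ ⋃ p ∈ t, {x | emp2 x ∈ U p} := by
    intro x hx
    have := ht hx
    simp only [mem_iUnion] at this ⊢
    exact this
  refine (measureReal_mono h1 (measure_ne_top _ _)).trans ?_
  refine (measureReal_biUnion_finset_le _ _).trans ?_
  refine (Finset.sum_le_sum fun p _ => measure_dv_gt_le lam p K hcard).trans ?_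
  rw [Finset.sum_const, nsmul_eq_mul]

end topo

end Pool.Agent.Lib.MP_fa244c_mp
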