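import Mathlib

/-!
# Large deviation tail of the logarithmic singularity, with arbitrarily large rate
-/

open MeasureTheory Filter Topology Set
open scoped ENNReal NNReal

namespace Pool.Agent.Lib.MP_fa244c_mp

/-- the truncated logarithmic kernel `(log (s / |z - w|))⁺` (equal to `0` for `z = w`) -/
noncomputable def lgp (s : ℝ) (z w : ℂ) : ℝ := max 0 (Real.log (s / ‖z - w‖))

lemma lgp_nonneg (s : ℝ) (z w : ℂ) : 0 ≤ lgp s z w := le_max_left _ _

lemma lgp_comm (s : ℝ) (z w : ℂ) : lgp s z w = lgp s w z := by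
  unfold lgp
  rw [norm_sub_rev]

lemma lgp_self (s : ℝ) (z : ℂ) : lgp s z z = 0 := by
  unfold lgp
  simp

lemma lgp_eq_zero {s : ℝ} {z w : ℂ} (h : s ≤ ‖z - w‖) (hs : 0 ≤ s) : lgp s z w = 0 := by
  unfold lgp
  refine max_eq_left (Real.log_nonpos (div_nonneg hs (norm_nonneg _)) ?_)
  exact div_le_one_of_le₀ h (norm_nonneg _)

lemma measurable_lgp (s : ℝ) : Measurable fun p : ℂ × ℂ => lgp s p.1 p.2 := by
  unfold lgp
  exact measurable_const.max (Real.measurable_log.comp
    (measurable_const.div (measurable_fst.sub measurable_snd).norm))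

/-- domination of `exp (lgp)` by a sum of indicators of dyadic balls -/
lemma exp_lgp_le {s : ℝ} (hs : 0 < s) (z w : ℂ) :
    ENNReal.ofReal (Real.exp (lgp s z w)) ≤
      1 + ∑' k : ℕ, ENNReal.ofReal (2 ^ (k + 1)) * (Metric.closedBall w (s / 2 ^ k)).indicator 1 z := by
  rcases le_or_gt s ‖z - w‖ with h | h
  · rw [lgp_eq_zero h hs.le, Real.exp_zero, ENNReal.ofReal_one]
    exact le_self_add
  · rcases (norm_nonneg (z - w)).eq_or_lt with h0 | h0
    · have : z = w := by
        rw [eq_comm, norm_eq_zero, sub_eq_zero] at h0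
        exact h0
      rw [this, lgp_self, Real.exp_zero, ENNReal.ofReal_one]
      exact le_self_add
    · have h1 : 1 ≤ s / ‖z - w‖ := by rw [le_div_iff₀ h0]; linarith
      obtain ⟨k, hk1, hk2⟩ := exists_nat_pow_near h1 (one_lt_two)
      have h2 : lgp s z w = Real.log (s / ‖z - w‖) := max_eq_right (Real.log_nonneg h1)
      rw [h2, Real.exp_log (by positivity)]
      have h3 : z ∈ Metric.closedBall w (s / 2 ^ k) := by
        rw [Metric.mem_closedBall, dist_eq_norm, le_div_iff₀ (by positivity)]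
        rw [le_div_iff₀ h0] at hk1
        linarith
      calc ENNReal.ofReal (s / ‖z - w‖) ≤ ENNReal.ofReal (2 ^ (k + 1)) :=
            ENNReal.ofReal_le_ofReal hk2.le
        _ = ENNReal.ofReal (2 ^ (k + 1)) * (Metric.closedBall w (s / 2 ^ k)).indicator 1 z := by
            rw [indicator_of_mem h3]; simp
        _ ≤ ∑' k : ℕ, ENNReal.ofReal (2 ^ (k + 1)) *
              (Metric.closedBall w (s / 2 ^ k)).indicator 1 z := ENNReal.le_tsum k
        _ ≤ _ := le_add_self

variable {X : Type*} [MeasurableSpace X]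

/-- standing assumptions on a probability measure and its position map -/
structure PosData (lam : Measure X) (φ : X → ℂ) (C D : ℝ) : Prop where
  prob : IsProbabilityMeasure lam
  meas : Measurable φ
  C_nonneg : 0 ≤ C
  D_nonneg : 0 ≤ D
  ball : ∀ w : ℂ, ∀ r : ℝ, 0 ≤ r → lam {x | ‖φ x - w‖ ≤ r} ≤ ENNReal.ofReal (C * r ^ 2)
  bound : ∀ x, ‖φ x‖ ≤ D

lemma lintegral_exp_lgp_le {lam : Measure X} {φ : X → ℂ} {C D : ℝ} (hd : PosData lam φ C D)
    {s : ℝ} (hs : 0 < s) (w : ℂ) (A : Set X) :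
    ∫⁻ x in A, ENNReal.ofReal (Real.exp (lgp s (φ x) w)) ∂lam
      ≤ lam A + ENNReal.ofReal (4 * C * s ^ 2) := by
  have hm : ∀ k : ℕ, MeasurableSet (φ ⁻¹' Metric.closedBall w (s / 2 ^ k)) := fun k =>
    hd.meas Metric.isClosed_closedBall.measurableSet
  calc ∫⁻ x in A, ENNReal.ofReal (Real.exp (lgp s (φ x) w)) ∂lam
      ≤ ∫⁻ x in A, (1 + ∑' k : ℕ, ENNReal.ofReal (2 ^ (k + 1)) *
          (φ ⁻¹' Metric.closedBall w (s / 2 ^ k)).indicator 1 x) ∂lam :=
        lintegral_mono fun x => exp_lgp_le hs (φ x) w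
    _ = lam A + ∑' k : ℕ, ∫⁻ x in A, ENNReal.ofReal (2 ^ (k + 1)) *
          (φ ⁻¹' Metric.closedBall w (s / 2 ^ k)).indicator 1 x ∂lam := by
        rw [lintegral_add_left measurable_const, lintegral_tsum]
        · simp
        · intro k
          exact (measurable_const.mul (measurable_one.indicator (hm k))).aemeasurable
    _ ≤ lam A + ∑' k : ℕ, ENNReal.ofReal (2 * C * s ^ 2 * (1 / 2) ^ k) := by
        gcongr with k
        rw [lintegral_const_mul _ (measurable_one.indicator (hm k)), lintegral_indicator_one (hm k)]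
        calc ENNReal.ofReal (2 ^ (k + 1)) * (lam.restrict A) (φ ⁻¹' Metric.closedBall w (s / 2 ^ k))
            ≤ ENNReal.ofReal (2 ^ (k + 1)) * ENNReal.ofReal (C * (s / 2 ^ k) ^ 2) := by
              gcongr
              refine (Measure.restrict_apply_le _ _).trans ?_
              have h1 := hd.ball w (s / 2 ^ k) (by positivity)
              refine le_trans (measure_mono ?_) h1
              intro x hx
              simpa [dist_eq_norm] using hx
          _ = ENNReal.ofReal (2 * C * s ^ 2 * (1 / 2) ^ k) := by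
              rw [← ENNReal.ofReal_mul (by positivity)]
              congr 1
              rw [div_pow, ← pow_mul, one_div, inv_pow]
              have h4 : (2 : ℝ) ^ (k * 2) = 2 ^ k * 2 ^ k := by rw [mul_two, pow_add]
              rw [h4, pow_succ]
              field_simp
    _ = lam A + ENNReal.ofReal (4 * C * s ^ 2) := by
        congr 1
        have hC := hd.C_nonneg
        rw [← ENNReal.ofReal_tsum_of_nonneg]
        · rw [tsum_mul_left, tsum_geometric_of_lt_one (by norm_num) (by norm_num)]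
          congr 1
          ring
        · intro k; positivity
        · exact (summable_geometric_of_lt_one (by norm_num) (by norm_num)).mul_left _

section cells

/-- index of the square cell of side `s` containing `z` -/
noncomputable def cell (s : ℝ) (z : ℂ) : ℤ × ℤ := (⌊z.re / s⌋, ⌊z.im / s⌋)

/-- the lower left corner of a cell -/
noncomputable def corner (s : ℝ) (a : ℤ × ℤ) : ℂ := ⟨s * a.1, s * a.2⟩

lemma norm_sub_corner_le {s : ℝ} (hs : 0 < s) (z : ℂ) : ‖z - corner s (cell s z)‖ ≤ 2 * s := by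
  have h : ∀ t : ℝ, |t - s * (⌊t / s⌋ : ℝ)| ≤ s := by
    intro t
    have h1 := Int.floor_le (t / s)
    have h2 := Int.lt_floor_add_one (t / s)
    rw [le_div_iff₀ hs] at h1
    rw [div_lt_iff₀ hs] at h2
    rw [abs_le]
    constructor <;> nlinarith
  refine (Complex.norm_le_abs_re_add_abs_im _).trans ?_
  have h1 := h z.re
  have h2 := h z.im
  simp only [corner, cell, Complex.sub_re, Complex.sub_im]
  linarith

lemma measurable_cell (s : ℝ) : Measurable (cell s) := by
  unfold cell
  exact (Int.measurable_floor.comp (Complex.measurable_re.div_const s)).prodMk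
    (Int.measurable_floor.comp (Complex.measurable_im.div_const s))

/-- finite set of cells meeting the disc of radius `D` -/
noncomputable def cells (s D : ℝ) : Finset (ℤ × ℤ) :=
  Finset.Icc (-(⌈D / s⌉ + 1)) (⌈D / s⌉ + 1) ×ˢ Finset.Icc (-(⌈D / s⌉ + 1)) (⌈D / s⌉ + 1)

lemma cell_mem_cells {s D : ℝ} (hs : 0 < s) {z : ℂ} (hz : ‖z‖ ≤ D) : cell s z ∈ cells s D := by
  have h : ∀ t : ℝ, |t| ≤ D → ⌊t / s⌋ ∈ Finset.Icc (-(⌈D / s⌉ + 1)) (⌈D / s⌉ + 1) := by
    intro t ht
    rw [abs_le] at ht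
    rw [Finset.mem_Icc]
    have h1 : -(D / s) ≤ t / s := by rw [← neg_div]; exact div_le_div_of_nonneg_right ht.1 hs.le
    have h2 : t / s ≤ D / s := div_le_div_of_nonneg_right ht.2 hs.le
    have h3 := Int.le_ceil (D / s)
    constructor
    · rw [Int.le_floor]
      push_cast
      linarith
    · have h4 : (⌊t / s⌋ : ℝ) ≤ ⌈D / s⌉ := (Int.floor_le _).trans (h2.trans h3)
      have h5 : ⌊t / s⌋ ≤ ⌈D / s⌉ := by exact_mod_cast h4
      linarith
  exact Finset.mem_product.2 ⟨h _ ((Complex.abs_re_le_norm z).trans hz),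
    h _ ((Complex.abs_im_le_norm z).trans hz)⟩

lemma card_cells_le {s D : ℝ} (hs : 0 < s) (hs1 : s ≤ 1) (hD : 0 ≤ D) :
    ((cells s D).card : ℝ) * s ^ 2 ≤ (2 * D + 5) ^ 2 := by
  unfold cells
  rw [Finset.card_product, Int.card_Icc]
  set m : ℤ := ⌈D / s⌉ + 1 + 1 - -(⌈D / s⌉ + 1) with hm
  have h0 : 0 ≤ D / s := div_nonneg hD hs.le
  have h1 := Int.ceil_lt_add_one (D / s)
  have h2 : (m : ℝ) = 2 * ⌈D / s⌉ + 3 := by rw [hm]; push_cast; ring
  have hc0 : (0 : ℤ) ≤ ⌈D / s⌉ := Int.ceil_nonneg h0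
  have hm0 : 0 ≤ m := by rw [hm]; linarith
  have h3 : ((m.toNat : ℕ) : ℝ) = m := by
    have : ((m.toNat : ℤ)) = m := Int.toNat_of_nonneg hm0
    exact_mod_cast this
  push_cast
  rw [h3]
  have h4 : (m : ℝ) * s ≤ 2 * D + 5 := by
    rw [h2]
    have h5 : (⌈D / s⌉ : ℝ) * s ≤ D + s := by
      have := mul_le_mul_of_nonneg_right h1.le hs.le
      rw [add_mul, div_mul_cancel₀ _ hs.ne'] at this
      linarith
    nlinarith
  have h6 : 0 ≤ (m : ℝ) * s := by
    have : (0 : ℝ) ≤ m := by exact_mod_cast hm0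
    positivity
  nlinarith [h4, h6]

/-- number of points near a cell -/
noncomputable def cnt (φ : X → ℂ) (s : ℝ) {m : ℕ} (p : Fin m → X) (a : ℤ × ℤ) : ℕ :=
  (Finset.univ.filter fun j => ‖φ (p j) - corner s a‖ ≤ 3 * s).card

open Classical in
/-- one step weight -/
noncomputable def wt (φ : X → ℂ) (s T : ℝ) {m : ℕ} (p : Fin m → X) (x : X) : ℝ≥0∞ :=
  if (cnt φ s p (cell s (φ x)) : ℝ) ≤ T then
    ENNReal.ofReal (Real.exp (T⁻¹ * ∑ j, lgp s (φ (p j)) (φ x))) else 0

/-- one step estimate on a cell -/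
lemma lintegral_wt_cell_le {lam : Measure X} {φ : X → ℂ} {C D : ℝ} (hd : PosData lam φ C D)
    {s T : ℝ} (hs : 0 < s) (hT : 0 < T) {m : ℕ} (p : Fin m → X) (a : ℤ × ℤ) :
    ∫⁻ x in {x | cell s (φ x) = a}, wt φ s T p x ∂lam
      ≤ lam {x | cell s (φ x) = a} + ENNReal.ofReal (4 * C * s ^ 2) := by
  classical
  have hAm : MeasurableSet {x | cell s (φ x) = a} :=
    ((measurable_cell s).comp hd.meas) (measurableSet_singleton a)
  set A : Set X := {x | cell s (φ x) = a} with hA
  by_cases hcnt : (cnt φ s p a : ℝ) ≤ T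
  swap
  · have h1 : ∫⁻ x in A, wt φ s T p x ∂lam = ∫⁻ x in A, 0 ∂lam := by
      refine setLIntegral_congr_fun hAm fun x hx => ?_
      have hx' : cell s (φ x) = a := hx
      unfold wt
      rw [hx', if_neg hcnt]
    rw [h1]
    simp
  set J : Finset (Fin m) := Finset.univ.filter fun j => ‖φ (p j) - corner s a‖ ≤ 3 * s with hJ
  have hcJ : cnt φ s p a = J.card := rfl
  have hvanish : ∀ x ∈ A, ∀ j ∉ J, lgp s (φ (p j)) (φ x) = 0 := by
    intro x hx j hj
    refine lgp_eq_zero ?_ hs.le
    have hx' : cell s (φ x) = a := hx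
    have h1 : 3 * s < ‖φ (p j) - corner s a‖ := by
      simpa [hJ] using hj
    have h2 : ‖φ x - corner s a‖ ≤ 2 * s := by
      rw [← hx']
      exact norm_sub_corner_le hs _
    have h3 : ‖φ (p j) - corner s a‖ ≤ ‖φ (p j) - φ x‖ + ‖φ x - corner s a‖ := by
      have := norm_add_le (φ (p j) - φ x) (φ x - corner s a)
      simpa using this
    linarith
  have hwt : ∀ x ∈ A, wt φ s T p x = ENNReal.ofReal (Real.exp (T⁻¹ * ∑ j ∈ J, lgp s (φ (p j)) (φ x))) := by
    intro x hx
    have hx' : cell s (φ x) = a := hx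
    unfold wt
    rw [hx', if_pos hcnt]
    congr 3
    refine (Finset.sum_subset (Finset.subset_univ J) fun j _ hj => hvanish x hx j hj).symm
  rcases J.eq_empty_or_nonempty with hJe | hJne
  · have h1 : ∫⁻ x in A, wt φ s T p x ∂lam = ∫⁻ x in A, 1 ∂lam := by
      refine setLIntegral_congr_fun hAm fun x hx => ?_
      rw [hwt x hx, hJe]
      simp
    rw [h1]
    simp only [lintegral_const, MeasurableSet.univ, Measure.restrict_apply, univ_inter, one_mul]
    exact le_self_add
  · have hJc : (0 : ℝ) < J.card := by exact_mod_cast hJne.card_pos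
    have hle : ∀ x ∈ A, wt φ s T p x ≤ ∑ j ∈ J, ENNReal.ofReal ((J.card : ℝ)⁻¹) *
        ENNReal.ofReal (Real.exp (lgp s (φ x) (φ (p j)))) := by
      intro x hx
      rw [hwt x hx]
      have h1 : Real.exp (T⁻¹ * ∑ j ∈ J, lgp s (φ (p j)) (φ x))
          ≤ ∑ j ∈ J, (J.card : ℝ)⁻¹ * Real.exp (lgp s (φ x) (φ (p j))) := by
        have h2 := convexOn_exp.map_sum_le (t := J) (w := fun _ => (J.card : ℝ)⁻¹)
          (p := fun j => T⁻¹ * J.card * lgp s (φ (p j)) (φ x)) (fun i _ => by positivity)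
          (by rw [Finset.sum_const, nsmul_eq_mul, mul_inv_cancel₀ hJc.ne']) (fun i _ => mem_univ _)
        simp only [smul_eq_mul] at h2
        have h3 : ∑ j ∈ J, (J.card : ℝ)⁻¹ * (T⁻¹ * J.card * lgp s (φ (p j)) (φ x))
            = T⁻¹ * ∑ j ∈ J, lgp s (φ (p j)) (φ x) := by
          rw [Finset.mul_sum]
          refine Finset.sum_congr rfl fun j _ => ?_
          field_simp
        rw [h3] at h2
        refine h2.trans (Finset.sum_le_sum fun j _ => ?_)
        refine mul_le_mul_of_nonneg_left (Real.exp_le_exp.2 ?_) (by positivity)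
        rw [lgp_comm s (φ x)]
        have h4 : T⁻¹ * J.card ≤ 1 := by
          rw [inv_mul_le_iff₀ hT, mul_one]
          rw [hcJ] at hcnt
          exact hcnt
        calc T⁻¹ * J.card * lgp s (φ (p j)) (φ x) ≤ 1 * lgp s (φ (p j)) (φ x) :=
              mul_le_mul_of_nonneg_right h4 (lgp_nonneg _ _ _)
          _ = _ := one_mul _
      refine (ENNReal.ofReal_le_ofReal h1).trans (le_of_eq ?_)
      rw [ENNReal.ofReal_sum_of_nonneg (fun j _ => by positivity)]
      refine Finset.sum_congr rfl fun j _ => ?_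
      rw [ENNReal.ofReal_mul (by positivity)]
    have hmeas : ∀ j, Measurable fun x => ENNReal.ofReal (Real.exp (lgp s (φ x) (φ (p j)))) := by
      intro j
      refine ENNReal.measurable_ofReal.comp (Real.measurable_exp.comp ?_)
      exact (measurable_lgp s).comp (hd.meas.prodMk measurable_const)
    calc ∫⁻ x in A, wt φ s T p x ∂lam
        ≤ ∫⁻ x in A, ∑ j ∈ J, ENNReal.ofReal ((J.card : ℝ)⁻¹) *
            ENNReal.ofReal (Real.exp (lgp s (φ x) (φ (p j)))) ∂lam :=
          setLIntegral_mono' hAm hle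
      _ = ∑ j ∈ J, ENNReal.ofReal ((J.card : ℝ)⁻¹) *
            ∫⁻ x in A, ENNReal.ofReal (Real.exp (lgp s (φ x) (φ (p j)))) ∂lam := by
          rw [lintegral_finsetSum _ fun j _ => (hmeas j).const_mul _]
          refine Finset.sum_congr rfl fun j _ => ?_
          rw [lintegral_const_mul _ (hmeas j)]
      _ ≤ ∑ j ∈ J, ENNReal.ofReal ((J.card : ℝ)⁻¹) *
            (lam A + ENNReal.ofReal (4 * C * s ^ 2)) := by
          gcongr with j
          exact lintegral_exp_lgp_le hd hs _ _
      _ = lam A + ENNReal.ofReal (4 * C * s ^ 2) := by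
          rw [Finset.sum_const, nsmul_eq_mul, ← mul_assoc]
          have h5 : (J.card : ℝ≥0∞) * ENNReal.ofReal ((J.card : ℝ)⁻¹) = 1 := by
            rw [ENNReal.ofReal_inv_of_pos hJc, ENNReal.ofReal_natCast]
            exact ENNReal.mul_inv_cancel (by exact_mod_cast hJc.ne') (by simp)
          rw [h5, one_mul]

/-- **one step estimate** -/
lemma lintegral_wt_le {lam : Measure X} {φ : X → ℂ} {C D : ℝ} (hd : PosData lam φ C D)
    {s T : ℝ} (hs : 0 < s) (hs1 : s ≤ 1) (hT : 0 < T) {m : ℕ} (p : Fin m → X) :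
    ∫⁻ x, wt φ s T p x ∂lam ≤ ENNReal.ofReal (1 + 4 * C * (2 * D + 5) ^ 2) := by
  classical
  have hprob := hd.prob
  have hC := hd.C_nonneg
  have hAm : ∀ a, MeasurableSet {x | cell s (φ x) = a} := fun a =>
    ((measurable_cell s).comp hd.meas) (measurableSet_singleton a)
  have hcover : (⋃ a ∈ cells s D, {x | cell s (φ x) = a}) = univ := by
    rw [eq_univ_iff_forall]
    intro x
    simp only [mem_iUnion]
    exact ⟨cell s (φ x), cell_mem_cells hs (hd.bound x), rfl⟩
  have hdisj : Set.PairwiseDisjoint (cells s D : Set (ℤ × ℤ)) fun a => {x | cell s (φ x) = a} := by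
    intro a _ b _ hab
    rw [Function.onFun, Set.disjoint_left]
    intro x hx hx'
    exact hab (hx.symm.trans hx')
  calc ∫⁻ x, wt φ s T p x ∂lam = ∫⁻ x in ⋃ a ∈ cells s D, {x | cell s (φ x) = a}, wt φ s T p x ∂lam := by
        rw [hcover, setLIntegral_univ]
    _ = ∑ a ∈ cells s D, ∫⁻ x in {x | cell s (φ x) = a}, wt φ s T p x ∂lam := by
        rw [lintegral_biUnion_finset hdisj (fun a _ => hAm a)]
    _ ≤ ∑ a ∈ cells s D, (lam {x | cell s (φ x) = a} + ENNReal.ofReal (4 * C * s ^ 2)) :=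
        Finset.sum_le_sum fun a _ => lintegral_wt_cell_le hd hs hT p a
    _ = lam (⋃ a ∈ cells s D, {x | cell s (φ x) = a})
          + (cells s D).card * ENNReal.ofReal (4 * C * s ^ 2) := by
        rw [Finset.sum_add_distrib, measure_biUnion_finset hdisj (fun a _ => hAm a),
          Finset.sum_const, nsmul_eq_mul]
    _ ≤ ENNReal.ofReal (1 + 4 * C * (2 * D + 5) ^ 2) := by
        rw [hcover, measure_univ, ← ENNReal.ofReal_natCast, ← ENNReal.ofReal_mul (by positivity),
          ← ENNReal.ofReal_one, ← ENNReal.ofReal_add zero_le_one (by positivity)]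
        refine ENNReal.ofReal_le_ofReal ?_
        have := card_cells_le hs hs1 hd.D_nonneg
        nlinarith

end cells

end Pool.Agent.Lib.MP_fa244c_mp
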